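import Mathlib

set_option autoImplicit false

namespace Pool.Agent.W432.PC

theorem jac_int : IsJacobsonRing ℤ := by
  rw [isJacobsonRing_iff_prime_eq]
  intro P hP
  by_cases h : P = ⊥
  · subst h
    rw [eq_bot_iff]
    intro x hx
    rw [Ideal.mem_jacobson_bot] at hx
    have h1 := hx x
    rw [Int.isUnit_iff] at h1
    rw [Ideal.mem_bot]
    rcases h1 with h1 | h1
    · have : x * x = 0 := by linarith
      exact mul_self_eq_zero.1 this
    · exfalso
      nlinarith [mul_self_nonneg x]
  · have : P.IsMaximal := IsPrime.to_maximal_ideal h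
    exact Ideal.jacobson_eq_self_of_isMaximal

universe u

theorem isAlgebraic_int_of_finite (L : Type u) [Field L] [Algebra ℚ L] [Module.Finite ℚ L]
    (x : L) : IsAlgebraic ℤ x := by
  have h0 : Algebra.IsAlgebraic ℚ L := Algebra.IsAlgebraic.of_finite ℚ L
  have h1 : IsAlgebraic ℚ x := Algebra.IsAlgebraic.isAlgebraic x
  exact (IsFractionRing.isAlgebraic_iff ℤ ℚ L).mpr h1

/-- A nontrivial `ℚ`-algebra of finite type has a point in a field algebraic over `ℚ`. -/
theorem exists_point_rat (B : Type u) [CommRing B] [Nontrivial B] [Algebra ℚ B]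
    [Algebra.FiniteType ℚ B] : ∃ (L : Type u) (_ : Field L) (_ : CharZero L) (ψ : B →+* L),
      ∀ x : B, IsAlgebraic ℤ (ψ x) := by
  obtain ⟨m, hm⟩ := Ideal.exists_maximal B
  let fld : Field (B ⧸ m) := Ideal.Quotient.field m
  have hft : Algebra.FiniteType ℚ (B ⧸ m) :=
    Algebra.FiniteType.of_surjective (Ideal.Quotient.mkₐ ℚ m) Ideal.Quotient.mk_surjective
  have hfin : Module.Finite ℚ (B ⧸ m) := finite_of_finite_type_of_isJacobsonRing ℚ (B ⧸ m)
  have hch : CharZero (B ⧸ m) := charZero_of_injective_algebraMap (algebraMap ℚ (B ⧸ m)).injective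
  exact ⟨B ⧸ m, fld, hch, Ideal.Quotient.mk m, fun x =>
    @isAlgebraic_int_of_finite (B ⧸ m) fld (Ideal.Quotient.algebra ℚ) hfin _⟩

/-- A finitely generated domain of characteristic zero has a point with values in a field that is
algebraic over `ℤ` and has characteristic zero. -/
theorem exists_algebraic_point_aux (S : Type u) [CommRing S]
    [Algebra.FiniteType ℤ S] (F : Type u) [Field F] [Algebra ℚ F] [Algebra S F] :
    ∃ (L : Type u) (_ : Field L) (_ : CharZero L) (ψ : S →+* L),
      ∀ x : S, IsAlgebraic ℤ (ψ x) := by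
  classical
  obtain ⟨s, hs⟩ := (Algebra.FiniteType.out : (⊤ : Subalgebra ℤ S).FG)
  let G : Finset F := s.image (algebraMap S F)
  let B : Subalgebra ℚ F := Algebra.adjoin ℚ (G : Set F)
  have hBfg : Algebra.FiniteType ℚ B := (Subalgebra.fg_iff_finiteType B).mp ⟨G, rfl⟩
  have hmem : ∀ x : S, algebraMap S F x ∈ B := by
    intro x
    have hx : x ∈ Algebra.adjoin ℤ (s : Set S) := by rw [hs]; trivial
    induction hx using Algebra.adjoin_induction with
    | mem y hy =>
      exact Algebra.subset_adjoin (by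
        rw [Finset.mem_coe]
        exact Finset.mem_image.mpr ⟨y, hy, rfl⟩)
    | algebraMap n =>
      have : algebraMap S F (algebraMap ℤ S n) = ((n : ℤ) : F) := by simp
      rw [this]
      exact intCast_mem B n
    | add y z _ _ h1 h2 => rw [map_add]; exact add_mem h1 h2
    | mul y z _ _ h1 h2 => rw [map_mul]; exact mul_mem h1 h2
  let ψ₀ : S →+* B := (algebraMap S F).codRestrict B hmem
  obtain ⟨L, i1, i2, ψ, h⟩ := exists_point_rat B
  exact ⟨L, i1, i2, ψ.comp ψ₀, fun x => h _⟩

theorem exists_algebraic_point (S : Type u) [CommRing S] [IsDomain S] [CharZero S]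
    [Algebra.FiniteType ℤ S] : ∃ (L : Type u) (_ : Field L) (_ : CharZero L) (ψ : S →+* L),
      ∀ x : S, IsAlgebraic ℤ (ψ x) := by
  have hF0 : CharZero (FractionRing S) :=
    charZero_of_injective_algebraMap (IsFractionRing.injective S (FractionRing S))
  exact exists_algebraic_point_aux S (FractionRing S)

/-- In a finitely generated domain of characteristic zero only finitely many primes are
invertible. -/
theorem exists_bound_unit (S : Type*) [CommRing S] [IsDomain S] [CharZero S]
    [Algebra.FiniteType ℤ S] : ∃ P₁ : ℕ, ∀ p : ℕ, p.Prime → P₁ < p → ¬ IsUnit (p : S) := by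
  classical
  obtain ⟨L, _, _, ψ, hψ⟩ := exists_algebraic_point S
  obtain ⟨s, hs⟩ := (Algebra.FiniteType.out : (⊤ : Subalgebra ℤ S).FG)
  choose d hd0 hd using fun x : S => (hψ x).exists_integral_multiple
  let D : ℤ := ∏ x ∈ s, d x
  have hD0 : D ≠ 0 := Finset.prod_ne_zero_iff.mpr fun x _ => hd0 x
  have key : ∀ x : S, ∃ k : ℕ, IsIntegral ℤ ((D : L) ^ k * ψ x) := by
    intro x
    have hx : x ∈ Algebra.adjoin ℤ (s : Set S) := by rw [hs]; trivial
    induction hx using Algebra.adjoin_induction with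
    | mem y hy =>
      refine ⟨1, ?_⟩
      rw [pow_one]
      have h1 : (D : L) * ψ y = ((∏ x ∈ s.erase y, d x : ℤ) : L) * (d y • ψ y) := by
        simp only [D]
        rw [← Finset.mul_prod_erase s d (by simpa using hy), zsmul_eq_mul]
        push_cast
        ring
      rw [h1]
      exact (isIntegral_algebraMap (R := ℤ) (x := ∏ x ∈ s.erase y, d x)).mul (hd y)
    | algebraMap n =>
      refine ⟨0, ?_⟩
      rw [pow_zero, one_mul]
      have : ψ (algebraMap ℤ S n) = algebraMap ℤ L n := by simp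
      rw [this]
      exact isIntegral_algebraMap
    | add y z _ _ h1 h2 =>
      obtain ⟨k1, h1⟩ := h1
      obtain ⟨k2, h2⟩ := h2
      refine ⟨k1 + k2, ?_⟩
      have hDi : IsIntegral ℤ (D : L) := isIntegral_algebraMap (R := ℤ) (x := D)
      have h3 : (D : L) ^ (k1 + k2) * ψ (y + z) =
          (D : L) ^ k2 * ((D : L) ^ k1 * ψ y) + (D : L) ^ k1 * ((D : L) ^ k2 * ψ z) := by
        rw [map_add]; ring
      rw [h3]
      exact ((hDi.pow k2).mul h1).add ((hDi.pow k1).mul h2)
    | mul y z _ _ h1 h2 =>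
      obtain ⟨k1, h1⟩ := h1
      obtain ⟨k2, h2⟩ := h2
      refine ⟨k1 + k2, ?_⟩
      have h3 : (D : L) ^ (k1 + k2) * ψ (y * z) =
          ((D : L) ^ k1 * ψ y) * ((D : L) ^ k2 * ψ z) := by
        rw [map_mul]; ring
      rw [h3]
      exact h1.mul h2
  refine ⟨D.natAbs, fun p hp hlt hu => ?_⟩
  obtain ⟨v, hv⟩ := hu.exists_right_inv
  obtain ⟨k, hk⟩ := key v
  have hpv : (p : L) * ψ v = 1 := by
    have := congrArg ψ hv
    rwa [map_mul, map_natCast, map_one] at this
  have hpL : (p : L) ≠ 0 := by exact_mod_cast hp.ne_zero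
  have h1 : (D : L) ^ k * ψ v = algebraMap ℚ L ((D : ℚ) ^ k / p) := by
    have h2 : ψ v = (p : L)⁻¹ := eq_inv_of_mul_eq_one_right hpv
    rw [h2]
    simp [div_eq_mul_inv]
  rw [h1, isIntegral_algebraMap_iff (algebraMap ℚ L).injective] at hk
  obtain ⟨z, hz⟩ := IsIntegrallyClosed.isIntegral_iff.mp hk
  have h3 : D ^ k = p * z := by
    have h4 : ((z : ℤ) : ℚ) = (D : ℚ) ^ k / p := by simpa using hz
    have hpq : (p : ℚ) ≠ 0 := by exact_mod_cast hp.ne_zero
    have h5 : (D : ℚ) ^ k = p * z := by rw [h4]; field_simp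
    exact_mod_cast h5
  have h4 : (p : ℤ) ∣ D := (Nat.prime_iff_prime_int.mp hp).dvd_of_dvd_pow (Dvd.intro _ h3.symm)
  have h5 : p ∣ D.natAbs := Int.natCast_dvd.mp h4
  have h6 := Nat.le_of_dvd (Int.natAbs_pos.mpr hD0) h5
  omega

/-- Closed points of every large residue characteristic in a given dense open subset. -/
theorem exists_closed_point_aux (R : Type u) [CommRing R] [IsDomain R] [CharZero R]
    [Algebra.FiniteType ℤ R] {g : R} (hg : g ≠ 0) (S : Type u) [CommRing S] [Algebra R S]
    [IsLocalization.Away g S] :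
    ∃ P₁ : ℕ, ∀ p : ℕ, p.Prime → P₁ < p →
      ∃ 𝔪 : Ideal R, 𝔪.IsMaximal ∧ (p : R) ∈ 𝔪 ∧ g ∉ 𝔪 := by
  have hle : Submonoid.powers g ≤ nonZeroDivisors R := powers_le_nonZeroDivisors_of_noZeroDivisors hg
  have hdom : IsDomain S := IsLocalization.isDomain_of_le_nonZeroDivisors S hle
  have hinj : Function.Injective (algebraMap R S) := IsLocalization.injective S hle
  have hch : CharZero S := charZero_of_injective_algebraMap hinj
  have hft0 : Algebra.FiniteType R S := IsLocalization.finiteType_of_monoid_fg (Submonoid.powers g) S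
  have hft : Algebra.FiniteType ℤ S := Algebra.FiniteType.trans (S := R) ‹_› hft0
  obtain ⟨P₁, h⟩ := exists_bound_unit S
  have hJ : IsJacobsonRing ℤ := jac_int
  have hJR : IsJacobsonRing R := isJacobsonRing_of_finiteType (A := ℤ)
  refine ⟨P₁, fun p hp hlt => ?_⟩
  obtain ⟨M, hM, hpM⟩ := exists_max_ideal_of_mem_nonunits (h p hp hlt)
  have h1 := (IsLocalization.isMaximal_iff_isMaximal_disjoint (S := S) g M).mp hM
  refine ⟨M.under R, h1.1, ?_, h1.2⟩
  rw [Ideal.under_def, Ideal.mem_comap, map_natCast]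
  exact hpM

theorem exists_closed_point (R : Type u) [CommRing R] [IsDomain R] [CharZero R]
    [Algebra.FiniteType ℤ R] {g : R} (hg : g ≠ 0) :
    ∃ P₁ : ℕ, ∀ p : ℕ, p.Prime → P₁ < p →
      ∃ 𝔪 : Ideal R, 𝔪.IsMaximal ∧ (p : R) ∈ 𝔪 ∧ g ∉ 𝔪 :=
  exists_closed_point_aux R hg (Localization.Away g)

end Pool.Agent.W432.PC
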