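import Mathlib

set_option autoImplicit false

open Polynomial

namespace Pool.Agent.W432.PC

section ddx

variable (k : Type*) [Field k]

/-- Auxiliary ring homomorphism `q ↦ q + ε q'` from `k[X]` to the dual numbers over `k(X)`. -/
noncomputable def ddxAux : k[X] →+* TrivSqZeroExt (RatFunc k) (RatFunc k) where
  toFun q := TrivSqZeroExt.inl (algebraMap k[X] (RatFunc k) q) +
    TrivSqZeroExt.inr (algebraMap k[X] (RatFunc k) (derivative q))
  map_one' := by simp
  map_zero' := by simp
  map_add' x y := by
    simp only [map_add, TrivSqZeroExt.inl_add, TrivSqZeroExt.inr_add]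
    abel
  map_mul' x y := by
    ext
    · simp
    · simp only [map_mul, derivative_mul, map_add, TrivSqZeroExt.snd_add, TrivSqZeroExt.snd_inl,
        TrivSqZeroExt.snd_inr, zero_add, TrivSqZeroExt.snd_mul, TrivSqZeroExt.fst_add,
        TrivSqZeroExt.fst_inl, TrivSqZeroExt.fst_inr, add_zero, smul_eq_mul,
        MulOpposite.smul_eq_mul_unop, MulOpposite.unop_op]
      ring

/-- The lift of `ddxAux` to `k(X)`. -/
noncomputable def ddxLift : RatFunc k →+* TrivSqZeroExt (RatFunc k) (RatFunc k) :=
  IsLocalization.lift (M := nonZeroDivisors k[X]) (g := ddxAux k) (by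
    intro y
    rw [TrivSqZeroExt.isUnit_iff_isUnit_fst]
    have : (ddxAux k y).fst = algebraMap k[X] (RatFunc k) y := by simp [ddxAux]
    rw [this, isUnit_iff_ne_zero]
    exact IsFractionRing.to_map_ne_zero_of_mem_nonZeroDivisors y.2)

lemma ddxLift_algebraMap (q : k[X]) :
    ddxLift k (algebraMap k[X] (RatFunc k) q) = ddxAux k q := by
  unfold ddxLift
  exact IsLocalization.lift_eq _ _

lemma ddxLift_fst (f : RatFunc k) : (ddxLift k f).fst = f := by
  have h : (TrivSqZeroExt.fstHom k (RatFunc k) (RatFunc k)).toRingHom.comp (ddxLift k) =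
      RingHom.id (RatFunc k) := by
    apply IsLocalization.ringHom_ext (nonZeroDivisors k[X])
    refine RingHom.ext fun q => ?_
    change (ddxLift k (algebraMap k[X] (RatFunc k) q)).fst = algebraMap k[X] (RatFunc k) q
    rw [ddxLift_algebraMap]
    simp only [ddxAux, RingHom.coe_mk, MonoidHom.coe_mk, OneHom.coe_mk, TrivSqZeroExt.fst_add,
      TrivSqZeroExt.fst_inl, TrivSqZeroExt.fst_inr, add_zero]
  exact RingHom.congr_fun h f

/-- The derivation `d/dx` of the field `k(x)` of rational functions. -/
noncomputable def ddx : Derivation k (RatFunc k) (RatFunc k) where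
  toFun f := (ddxLift k f).snd
  map_add' f g := by rw [map_add, TrivSqZeroExt.snd_add]
  map_smul' c f := by
    have h1 : c • f = algebraMap k[X] (RatFunc k) (C c) * f := by
      rw [← Algebra.smul_def]
      rw [Polynomial.C_eq_algebraMap, algebraMap_smul]
    rw [h1, map_mul, TrivSqZeroExt.snd_mul, ddxLift_algebraMap, ddxLift_fst]
    simp only [ddxAux, RingHom.coe_mk, MonoidHom.coe_mk, OneHom.coe_mk, derivative_C, map_zero,
      TrivSqZeroExt.inr_zero, add_zero, TrivSqZeroExt.fst_inl, TrivSqZeroExt.snd_inl, smul_eq_mul,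
      RingHom.id_apply]
    rw [MulOpposite.smul_eq_mul_unop, zero_mul, add_zero, ← Algebra.smul_def,
      Polynomial.C_eq_algebraMap, algebraMap_smul]
  map_one_eq_zero' := by simp
  leibniz' f g := by
    change (ddxLift k (f * g)).snd = f • (ddxLift k g).snd + g • (ddxLift k f).snd
    rw [map_mul, TrivSqZeroExt.snd_mul, ddxLift_fst, ddxLift_fst]
    simp only [smul_eq_mul, MulOpposite.smul_eq_mul_unop, MulOpposite.unop_op]
    ring

lemma ddx_algebraMap (q : k[X]) :
    ddx k (algebraMap k[X] (RatFunc k) q) = algebraMap k[X] (RatFunc k) (derivative q) := by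
  change (ddxLift k _).snd = _
  rw [ddxLift_algebraMap]
  simp only [ddxAux, RingHom.coe_mk, MonoidHom.coe_mk, OneHom.coe_mk, TrivSqZeroExt.snd_add,
    TrivSqZeroExt.snd_inl, TrivSqZeroExt.snd_inr, zero_add]

lemma ddx_X : ddx k (RatFunc.X : RatFunc k) = 1 := by
  rw [← RatFunc.algebraMap_X, ddx_algebraMap]
  simp

end ddx

end Pool.Agent.W432.PC
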