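import Pool.Agent.W432.PC.PCurv

set_option autoImplicit false

open Polynomial

namespace Pool.Agent.W432.PC

/-- The limit weight of a rational exponent `q` in the residue class `a`: the fractional part of
`a q`, except that a negative integer has weight `1`. -/
def wt (a : ℤ) (q : ℚ) : ℚ := if q < 0 ∧ q.den = 1 then 1 else Int.fract (a * q)

/-- For a large prime `p` with `a p ≡ -1 (mod N)` the representative in `[0, p)` of `q` modulo `p`
is `p * wt a q + q`. -/
lemma exists_rep {N : ℕ} (hN : 0 < N) {a : ℤ} {q : ℚ} {m : ℤ} (hm : (N : ℚ) * q = m) {p : ℕ}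
    (hp : (|m| : ℤ) < p) (hap : (N : ℤ) ∣ a * p + 1) :
    ∃ e : ℕ, e < p ∧ (e : ℚ) = p * wt a q + q ∧ ∃ t : ℤ, (N : ℤ) * e = m + p * t := by
  have hN' : (0 : ℤ) < N := by exact_mod_cast hN
  have hNq : (0 : ℚ) < N := by exact_mod_cast hN
  have hm1 := (abs_lt.mp hp).1
  have hm2 := (abs_lt.mp hp).2
  by_cases hint : q.den = 1
  · obtain ⟨z, rfl⟩ : ∃ z : ℤ, (z : ℚ) = q := ⟨q.num, (Rat.den_eq_one_iff q).mp hint⟩
    have hz : (N : ℤ) * z = m := by exact_mod_cast hm
    have hzabs : |z| < p := by
      have h1 : |z| ≤ |m| := by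
        rw [← hz, abs_mul]
        have : (1 : ℤ) ≤ |(N : ℤ)| := by rw [abs_of_pos hN']; omega
        nlinarith [abs_nonneg z]
      omega
    have hz1 := (abs_lt.mp hzabs).1
    have hz2 := (abs_lt.mp hzabs).2
    by_cases hneg : (z : ℚ) < 0
    · have hneg' : z < 0 := by exact_mod_cast hneg
      have hw : wt a (z : ℚ) = 1 := by
        unfold wt
        rw [if_pos ⟨hneg, hint⟩]
      refine ⟨(p + z).toNat, by omega, ?_, N, ?_⟩
      · rw [hw]
        have : (((p + z).toNat : ℕ) : ℤ) = p + z := Int.toNat_of_nonneg (by omega)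
        have h2 : (((p + z).toNat : ℕ) : ℚ) = ((p + z : ℤ) : ℚ) := by exact_mod_cast this
        rw [h2]; push_cast; ring
      · rw [Int.toNat_of_nonneg (by omega), ← hz]; ring
    · have hnn : 0 ≤ z := by
        have : ¬ z < 0 := fun h => hneg (by exact_mod_cast h)
        omega
      have hw : wt a (z : ℚ) = 0 := by
        unfold wt
        rw [if_neg (fun h => hneg h.1)]
        have : (a : ℚ) * z = ((a * z : ℤ) : ℚ) := by push_cast; ring
        rw [this, Int.fract_intCast]
      refine ⟨z.toNat, by omega, ?_, 0, ?_⟩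
      · rw [hw]
        have : ((z.toNat : ℕ) : ℤ) = z := Int.toNat_of_nonneg hnn
        have h2 : ((z.toNat : ℕ) : ℚ) = (z : ℚ) := by exact_mod_cast this
        rw [h2]; ring
      · rw [Int.toNat_of_nonneg hnn, ← hz]; ring
  · -- non-integral exponent
    have hw : wt a q = Int.fract ((a : ℚ) * q) := by
      unfold wt
      rw [if_neg (fun h => hint h.2)]
    have hq : q = (m : ℚ) / N := by
      rw [eq_div_iff hNq.ne']
      linarith
    set t : ℤ := (a * m) % N with ht
    have ht0 : 0 ≤ t := Int.emod_nonneg _ hN'.ne'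
    have htN : t < N := Int.emod_lt_of_pos _ hN'
    have hfract : Int.fract ((a : ℚ) * q) = (t : ℚ) / N := by
      rw [hq]
      have h1 : (a : ℚ) * (m / N) = ((a * m : ℤ) : ℚ) / (N : ℚ) := by push_cast; ring
      rw [h1, Int.fract_div_intCast_eq_div_intCast_mod]
    have htne : t ≠ 0 := by
      intro h0
      have h1 : (N : ℤ) ∣ a * m := Int.dvd_of_emod_eq_zero h0
      have h2 : IsCoprime (N : ℤ) a := by
        obtain ⟨w, hw⟩ := hap
        exact ⟨w, -p, by linarith⟩
      have h3 : (N : ℤ) ∣ m := h2.dvd_of_dvd_mul_left h1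
      obtain ⟨w, hw⟩ := h3
      apply hint
      have : q = (w : ℚ) := by
        rw [hq, hw]
        push_cast
        field_simp
      rw [this]
      exact Rat.den_intCast w
    have hdvd : (N : ℤ) ∣ m + p * t := by
      have h1 : (N : ℤ) ∣ a * m - t := by
        rw [ht]
        exact Int.dvd_self_sub_emod
      have h2 : m + p * t = (a * p + 1) * m - p * (a * m - t) := by ring
      rw [h2]
      exact dvd_sub (hap.mul_right m) (h1.mul_left p)
    obtain ⟨e, he⟩ := hdvd
    have hepos : 0 < e := by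
      have h1 : 0 < m + p * t := by
        have ht1 : 1 ≤ t := by omega
        have hp0 : (0 : ℤ) ≤ p := Int.natCast_nonneg p
        nlinarith
      rw [he] at h1
      exact pos_of_mul_pos_right h1 hN'.le
    have helt : e < p := by
      have h1 : (N : ℤ) * e < N * p := by
        rw [← he]; nlinarith
      exact lt_of_mul_lt_mul_left h1 hN'.le
    refine ⟨e.toNat, by omega, ?_, t, ?_⟩
    · have h1 : ((e.toNat : ℕ) : ℤ) = e := Int.toNat_of_nonneg hepos.le
      have h2 : ((e.toNat : ℕ) : ℚ) = (e : ℚ) := by exact_mod_cast h1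
      rw [h2, hw, hfract]
      have h3 : (N : ℚ) * e = m + p * t := by exact_mod_cast he.symm
      rw [hq]
      field_simp
      linarith
    · rw [Int.toNat_of_nonneg hepos.le, he]

end Pool.Agent.W432.PC
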