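import Mathlib

set_option autoImplicit false

open Polynomial

namespace Pool.Agent.W432.PC

section defs

variable {R : Type*} [CommRing R] {n r : ℕ}

/-- The product of the linear factors `X - α j`. -/
noncomputable def T (α : Fin n → R) : R[X] := ∏ j, (X - C (α j))

/-- The product of the linear factors other than `X - α j`. -/
noncomputable def Tc (α : Fin n → R) (j : Fin n) : R[X] :=
  ∏ i ∈ Finset.univ.erase j, (X - C (α i))

/-- The polynomial matrix `∑ j, (∏_{i ≠ j} (X - α i)) A j`. -/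
noncomputable def B (α : Fin n → R) (A : Fin n → Matrix (Fin r) (Fin r) R) :
    Matrix (Fin r) (Fin r) R[X] :=
  ∑ j, Tc α j • (A j).map C

/-- Polynomial solutions of `y' = ∑ j, A j / (x - α j) y`. -/
def Sol (α : Fin n → R) (A : Fin n → Matrix (Fin r) (Fin r) R) (y : Fin r → R[X]) : Prop :=
  ∀ i, T α * derivative (y i) = (B α A).mulVec y i

end defs

section field

variable {k : Type*} [Field k] {n r : ℕ} {α : Fin n → k} {A : Fin n → Matrix (Fin r) (Fin r) k}

lemma T_eq (j : Fin n) : T α = (X - C (α j)) * Tc α j := by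
  unfold T Tc
  rw [Finset.mul_prod_erase Finset.univ (fun i => X - C (α i)) (Finset.mem_univ j)]

lemma T_monic : (T α).Monic := monic_prod_of_monic _ _ fun i _ => monic_X_sub_C _

lemma T_ne : T α ≠ 0 := T_monic.ne_zero

lemma T_natDegree : (T α).natDegree = n := by
  unfold T
  rw [natDegree_prod_of_monic _ _ fun i _ => monic_X_sub_C _]
  simp

lemma Tc_monic (j : Fin n) : (Tc α j).Monic := monic_prod_of_monic _ _ fun i _ => monic_X_sub_C _

lemma Tc_eval_ne (hα : Function.Injective α) (j : Fin n) : (Tc α j).eval (α j) ≠ 0 := by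
  unfold Tc
  rw [eval_prod]
  refine Finset.prod_ne_zero_iff.mpr fun i hi => ?_
  simp only [eval_sub, eval_X, eval_C]
  have : i ≠ j := (Finset.mem_erase.mp hi).1
  exact sub_ne_zero.mpr fun h => this (hα h.symm)

lemma Tc_eval_eq_zero {i j : Fin n} (hij : i ≠ j) : (Tc α i).eval (α j) = 0 := by
  unfold Tc
  rw [eval_prod]
  exact Finset.prod_eq_zero (Finset.mem_erase.mpr ⟨hij.symm, Finset.mem_univ j⟩) (by simp)

lemma T_eval_ne {x : k} (hx : ∀ j, x ≠ α j) : (T α).eval x ≠ 0 := by
  unfold T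
  rw [eval_prod]
  refine Finset.prod_ne_zero_iff.mpr fun i _ => ?_
  simp only [eval_sub, eval_X, eval_C]
  exact sub_ne_zero.mpr (hx i)

lemma mulVec_B (y : Fin r → k[X]) (i : Fin r) :
    (B α A).mulVec y i = ∑ j, Tc α j * ∑ l, C (A j i l) * y l := by
  unfold B
  rw [Matrix.sum_mulVec, Finset.sum_apply]
  refine Finset.sum_congr rfl fun j _ => ?_
  rw [Matrix.smul_mulVec, Pi.smul_apply, smul_eq_mul]
  rfl

lemma Sol.add {y z : Fin r → k[X]} (hy : Sol α A y) (hz : Sol α A z) : Sol α A (y + z) := by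
  intro i
  rw [Matrix.mulVec_add, Pi.add_apply, Pi.add_apply, derivative_add, mul_add, hy i, hz i]

lemma Sol.zero : Sol α A (0 : Fin r → k[X]) := by
  intro i
  simp

lemma Sol.smul {a : k[X]} (ha : derivative a = 0) {y : Fin r → k[X]} (hy : Sol α A y) :
    Sol α A (a • y) := by
  intro i
  rw [Matrix.mulVec_smul, Pi.smul_apply, Pi.smul_apply, smul_eq_mul, smul_eq_mul, derivative_mul,
    ha, zero_mul, zero_add, ← hy i]
  ring

lemma Sol.of_smul {a : k[X]} (ha : derivative a = 0) (ha0 : a ≠ 0) {y : Fin r → k[X]}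
    (hy : Sol α A (a • y)) : Sol α A y := by
  intro i
  have h := hy i
  rw [Matrix.mulVec_smul, Pi.smul_apply, Pi.smul_apply, smul_eq_mul, smul_eq_mul, derivative_mul,
    ha, zero_mul, zero_add] at h
  apply mul_left_cancel₀ ha0
  rw [← h]
  ring

lemma Sol.sum {ι : Type*} (s : Finset ι) {y : ι → Fin r → k[X]} (hy : ∀ i ∈ s, Sol α A (y i)) :
    Sol α A (∑ i ∈ s, y i) := by
  classical
  induction s using Finset.induction_on with
  | empty => simpa using Sol.zero
  | insert a s ha ih =>
    rw [Finset.sum_insert ha]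
    exact (hy a (Finset.mem_insert_self a s)).add
      (ih fun i hi => hy i (Finset.mem_insert_of_mem hi))

/-- Key local identity: if `y = τ ^ e z` is a solution, `τ = X - x₀`, then
`T (e z + τ z') = τ B z`. -/
lemma local_eq {x₀ : k} {e : ℕ} {y z : Fin r → k[X]} (hy : Sol α A y)
    (hz : ∀ i, y i = (X - C x₀) ^ e * z i) (i : Fin r) :
    T α * ((e : k[X]) * z i + (X - C x₀) * derivative (z i)) =
      (X - C x₀) * (B α A).mulVec z i := by
  have hne : (X - C x₀ : k[X]) ^ e ≠ 0 := pow_ne_zero _ (X_sub_C_ne_zero x₀)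
  have hyz : y = ((X - C x₀) ^ e) • z := by
    ext1 i; rw [hz i]; rfl
  have h := hy i
  rw [hyz, Matrix.mulVec_smul, Pi.smul_apply, Pi.smul_apply, smul_eq_mul, smul_eq_mul,
    derivative_mul] at h
  apply mul_left_cancel₀ hne
  have h2 : (X - C x₀) * derivative ((X - C x₀) ^ e) = (e : k[X]) * (X - C x₀) ^ e := by
    rw [derivative_pow]
    cases e with
    | zero => simp
    | succ m =>
      simp only [derivative_sub, derivative_X, derivative_C, sub_zero, mul_one]
      simp only [Nat.add_sub_cancel]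
      rw [show (C ((m + 1 : ℕ) : k) : k[X]) = ((m + 1 : ℕ) : k[X]) by simp]
      rw [pow_succ]
      ring
  calc (X - C x₀) ^ e * (T α * ((e : k[X]) * z i + (X - C x₀) * derivative (z i)))
      = T α * (((e : k[X]) * (X - C x₀) ^ e) * z i
          + (X - C x₀) * ((X - C x₀) ^ e * derivative (z i))) := by ring
    _ = (X - C x₀) * (T α * (derivative ((X - C x₀) ^ e) * z i
          + (X - C x₀) ^ e * derivative (z i))) := by rw [← h2]; ring
    _ = (X - C x₀) ^ e * ((X - C x₀) * (B α A).mulVec z i) := by rw [h]; ring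

/-- At a singular point the leading coefficient vector is an eigenvector of the residue. -/
lemma local_sing (hα : Function.Injective α) (j : Fin n) {e : ℕ} {y z : Fin r → k[X]}
    (hy : Sol α A y) (hz : ∀ i, y i = (X - C (α j)) ^ e * z i) :
    (A j).mulVec (fun i => (z i).eval (α j)) = (e : k) • (fun i => (z i).eval (α j)) := by
  ext1 i
  have h := local_eq hy hz i
  rw [T_eq j, mul_assoc] at h
  have h1 := mul_left_cancel₀ (X_sub_C_ne_zero (α j)) h
  have h2 := congrArg (Polynomial.eval (α j)) h1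
  rw [mulVec_B, eval_mul, eval_add, eval_mul, eval_mul, eval_finset_sum] at h2
  rw [Finset.sum_eq_single j] at h2
  · simp only [eval_natCast, eval_sub, eval_X, eval_C, sub_self, zero_mul, add_zero, eval_mul,
      eval_finset_sum] at h2
    have h3 := mul_left_cancel₀ (Tc_eval_ne hα j) h2
    rw [Pi.smul_apply, smul_eq_mul, h3]
    rfl
  · intro b _ hb
    rw [eval_mul, Tc_eval_eq_zero hb, zero_mul]
  · intro h; exact absurd (Finset.mem_univ j) h

/-- At a regular point the order of vanishing is zero in `k`. -/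
lemma local_reg {x₀ : k} (hx : ∀ j, x₀ ≠ α j) {e : ℕ} {y z : Fin r → k[X]}
    (hy : Sol α A y) (hz : ∀ i, y i = (X - C x₀) ^ e * z i) {i : Fin r}
    (hi : (z i).eval x₀ ≠ 0) : (e : k) = 0 := by
  have h := congrArg (Polynomial.eval x₀) (local_eq hy hz i)
  simp only [eval_mul, eval_add, eval_natCast, eval_sub, eval_X, eval_C, sub_self, zero_mul,
    add_zero] at h
  have h1 := (mul_eq_zero.mp h).resolve_left (T_eval_ne hx)
  exact (mul_eq_zero.mp h1).resolve_right hi

/-- Every nonzero polynomial vector has an order at `x₀`. -/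
lemma exists_order (x₀ : k) {y : Fin r → k[X]} (hy : y ≠ 0) :
    ∃ (e : ℕ) (z : Fin r → k[X]), (∀ i, y i = (X - C x₀) ^ e * z i) ∧
      ∃ i, (z i).eval x₀ ≠ 0 := by
  classical
  have hne : (Finset.univ.filter fun i => y i ≠ 0).Nonempty := by
    obtain ⟨i, hi⟩ := Function.ne_iff.mp hy
    exact ⟨i, Finset.mem_filter.mpr ⟨Finset.mem_univ i, hi⟩⟩
  obtain ⟨i₀, hi₀, hmin⟩ := Finset.exists_min_image _ (fun i => (y i).rootMultiplicity x₀) hne
  have hi₀' : y i₀ ≠ 0 := (Finset.mem_filter.mp hi₀).2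
  have hdvd : ∀ i, (X - C x₀) ^ ((y i₀).rootMultiplicity x₀) ∣ y i := by
    intro i
    by_cases h0 : y i = 0
    · rw [h0]; exact dvd_zero _
    · exact (pow_dvd_pow _ (hmin i (Finset.mem_filter.mpr ⟨Finset.mem_univ i, h0⟩))).trans
        (pow_rootMultiplicity_dvd _ _)
  choose z hz using hdvd
  refine ⟨_, z, hz, i₀, fun h0 => ?_⟩
  have h1 : (X - C x₀) ∣ z i₀ := dvd_iff_isRoot.mpr h0
  obtain ⟨w, hw⟩ := h1
  have h2 : (X - C x₀) ^ ((y i₀).rootMultiplicity x₀ + 1) ∣ y i₀ := by
    refine ⟨w, ?_⟩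
    conv_lhs => rw [hz i₀, hw]
    rw [pow_succ]; ring
  have h3 := (le_rootMultiplicity_iff hi₀').mpr h2
  omega

end field

end Pool.Agent.W432.PC
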