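import Pool.Agent.W432.PC.PCurv

set_option autoImplicit false

open Polynomial

namespace Pool.Agent.W432.PC

/-- A full family of polynomial solutions. -/
def Full {k : Type*} [Field k] {n r : ℕ} (α : Fin n → k) (A : Fin n → Matrix (Fin r) (Fin r) k) :
    Prop :=
  ∃ Y : Matrix (Fin r) (Fin r) k[X], (∀ i, Sol α A (Y i)) ∧ Y.det ≠ 0

section

variable {k : Type*} [Field k] {n r : ℕ} {α : Fin n → k} {A : Fin n → Matrix (Fin r) (Fin r) k}

lemma sol_rows_iff (Y : Matrix (Fin r) (Fin r) k[X]) :
    (∀ i, Sol α A (Y i)) ↔ T α • Y.map derivative = Y * (B α A).transpose := by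
  constructor
  · intro h
    ext1 i l
    have := h i l
    rw [Matrix.smul_apply, Matrix.map_apply, smul_eq_mul, this]
    simp only [Matrix.mulVec, dotProduct, Matrix.mul_apply, Matrix.transpose_apply]
    exact Finset.sum_congr rfl fun x _ => mul_comm _ _
  · intro h i l
    have := congrFun (congrFun h i) l
    rw [Matrix.smul_apply, Matrix.map_apply, smul_eq_mul] at this
    rw [this]
    simp only [Matrix.mulVec, dotProduct, Matrix.mul_apply, Matrix.transpose_apply]
    exact Finset.sum_congr rfl fun x _ => mul_comm _ _

lemma B_neg_transpose : B α (fun j => -(A j).transpose) = -(B α A).transpose := by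
  ext1 i l
  simp only [B, Matrix.sum_apply, Matrix.smul_apply, Matrix.map_apply, Matrix.neg_apply,
    Matrix.transpose_apply, map_neg, smul_eq_mul, mul_neg, Finset.sum_neg_distrib]

lemma map_derivative_mul (M N : Matrix (Fin r) (Fin r) k[X]) :
    (M * N).map derivative = M.map derivative * N + M * N.map derivative := by
  ext1 i l
  simp only [Matrix.map_apply, Matrix.mul_apply, Matrix.add_apply, derivative_sum, derivative_mul,
    Finset.sum_add_distrib]

/-- The dual system has a full family of solutions as well. -/
theorem Full.dual {p : ℕ} [Fact p.Prime] [CharP k p] (h : Full α A) :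
    Full α (fun j => -(A j).transpose) := by
  obtain ⟨Y, hY, hdet⟩ := h
  have hp : p.Prime := Fact.out
  rw [sol_rows_iff] at hY
  set d := Y.det with hd
  -- the polynomial matrix det ^ (p - 1) adj
  let W : Matrix (Fin r) (Fin r) k[X] := (d ^ (p - 1)) • Y.adjugate
  have hdp : d * d ^ (p - 1) = d ^ p := by
    rw [← pow_succ']; congr 1; have := hp.pos; omega
  have hWY : W * Y = (d ^ p) • (1 : Matrix (Fin r) (Fin r) k[X]) := by
    simp only [W]
    rw [Matrix.smul_mul, Matrix.adjugate_mul, smul_smul, mul_comm, hdp]
  have hder : (W * Y).map derivative = 0 := by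
    rw [hWY]
    ext1 i l
    simp only [Matrix.map_apply, Matrix.smul_apply, smul_eq_mul, derivative_mul,
      derivative_pow_p (p := p) d, zero_mul, zero_add, Matrix.zero_apply]
    by_cases hil : i = l
    · subst hil; simp
    · simp [hil]
  rw [map_derivative_mul] at hder
  -- T W' Y = - W Y Bᵀ, hence T W' d = - W adj(...)
  have h1 : (T α • W.map derivative) * Y = -(W * Y) * (B α A).transpose := by
    rw [Matrix.smul_mul]
    have h2 : W.map derivative * Y = -(W * Y.map derivative) := eq_neg_of_add_eq_zero_left hder
    rw [h2, smul_neg, ← Matrix.mul_smul, hY, Matrix.neg_mul, Matrix.mul_assoc]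
  have h3 : d • (T α • W.map derivative) = d • (-((B α A).transpose * W)) := by
    have h4 : (T α • W.map derivative) * Y * Y.adjugate =
        -(W * Y) * (B α A).transpose * Y.adjugate := by rw [h1]
    rw [Matrix.mul_assoc, Matrix.mul_adjugate, ← hd, Matrix.mul_smul, Matrix.mul_one, hWY] at h4
    rw [h4]
    simp only [W, Matrix.neg_mul, Matrix.smul_mul, Matrix.one_mul, Matrix.mul_smul, smul_neg,
      smul_smul, hdp]
  have h5 : T α • W.map derivative = -((B α A).transpose * W) := by
    ext1 i l
    have := congrFun (congrFun h3 i) l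
    rw [Matrix.smul_apply, Matrix.smul_apply, smul_eq_mul, smul_eq_mul] at this
    exact mul_left_cancel₀ hdet this
  refine ⟨W.transpose, ?_, ?_⟩
  · rw [sol_rows_iff, B_neg_transpose, Matrix.transpose_neg, Matrix.transpose_transpose,
      Matrix.mul_neg]
    have h6 := congrArg Matrix.transpose h5
    rw [Matrix.transpose_neg, Matrix.transpose_mul, Matrix.transpose_transpose] at h6
    rw [← h6]
    rfl
  · rw [Matrix.det_transpose]
    intro h0
    have h6 := congrArg Matrix.det hWY
    rw [Matrix.det_mul, h0, zero_mul, Matrix.det_smul, Matrix.det_one, mul_one] at h6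
    exact pow_ne_zero _ (pow_ne_zero _ hdet) h6.symm

end

end Pool.Agent.W432.PC
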