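import Pool.Agent.W432.PC.LinSpec
import Pool.Agent.W432.PC.Dual

set_option autoImplicit false

open Polynomial

namespace Pool.Agent.W432.PC

section

variable {R : Type*} [CommRing R] [IsDomain R] {n r : ℕ}

/-- The rational numbers `lam l` are the eigenvalues of the matrix `A`, with multiplicity. -/
def HasExponents (A : Matrix (Fin r) (Fin r) R) (lam : Fin r → ℚ) : Prop :=
  A.charpoly.map (algebraMap R (FractionRing R)) = ∏ l, (X - C ((lam l : ℚ) : FractionRing R))

/-- The lexicographic order on exponents: first the weight, then the exponent itself. -/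
def lexLE (a : ℤ) (x y : ℚ) : Prop := wt a x < wt a y ∨ (wt a x = wt a y ∧ x ≤ y)

omit [IsDomain R] in
lemma charZero_fraction [CharZero R] : CharZero (FractionRing R) :=
  charZero_of_injective_algebraMap (IsFractionRing.injective R (FractionRing R))

lemma HasExponents.trace [CharZero R] {A : Matrix (Fin r) (Fin r) R} {lam : Fin r → ℚ}
    (h : HasExponents A lam) :
    algebraMap R (FractionRing R) A.trace = ((∑ l, lam l : ℚ) : FractionRing R) := by
  have h1 : (A.charpoly.map (algebraMap R (FractionRing R))).nextCoeff =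
      algebraMap R (FractionRing R) A.charpoly.nextCoeff :=
    nextCoeff_map (IsFractionRing.injective R (FractionRing R)) _
  unfold HasExponents at h
  rw [h, prod_X_sub_C_nextCoeff] at h1
  rw [Matrix.trace_eq_neg_charpoly_nextCoeff, map_neg, ← h1, neg_neg, Rat.cast_sum]

/-- Reduction of the characteristic polynomial. -/
lemma HasExponents.charpoly_map [CharZero R] {A : Matrix (Fin r) (Fin r) R} {lam : Fin r → ℚ}
    (h : HasExponents A lam) {N : ℕ} (hN : 0 < N) {m : Fin r → ℤ} (hm : ∀ l, (N : ℚ) * lam l = m l)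
    {K : Type*} [Field K] (φ : R →+* K) (hNK : (N : K) ≠ 0) {e : Fin r → ℕ}
    (he : ∀ l, (N : K) * (e l : K) = (m l : K)) :
    (A.map φ).charpoly = ∏ l, (X - C ((e l : ℕ) : K)) := by
  have := charZero_fraction (R := R)
  have hpoly : C ((N : R) ^ r) * A.charpoly = ∏ l, (C (N : R) * X - C ((m l : ℤ) : R)) := by
    apply map_injective _ (IsFractionRing.injective R (FractionRing R))
    rw [Polynomial.map_mul, h, Polynomial.map_prod]
    have h1 : (C ((N : R) ^ r)).map (algebraMap R (FractionRing R)) =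
        ∏ _l : Fin r, (C (N : FractionRing R) : (FractionRing R)[X]) := by
      rw [Polynomial.map_C, map_pow, map_natCast, Finset.prod_const, Finset.card_univ,
        Fintype.card_fin, C_pow]
    rw [h1, ← Finset.prod_mul_distrib]
    refine Finset.prod_congr rfl fun l _ => ?_
    have h2 : (N : FractionRing R) * ((lam l : ℚ) : FractionRing R) = ((m l : ℤ) : FractionRing R) := by
      exact_mod_cast congrArg (fun x : ℚ => (x : FractionRing R)) (hm l)
    have h3 : (C (N : R) * X - C ((m l : ℤ) : R)).map (algebraMap R (FractionRing R)) =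
        C (N : FractionRing R) * X - C ((m l : ℤ) : FractionRing R) := by simp
    rw [h3, mul_sub, ← C_mul, h2]
  have h2 := congrArg (Polynomial.map φ) hpoly
  rw [Polynomial.map_mul, Polynomial.map_prod, Polynomial.map_C, map_pow, map_natCast,
    ← Matrix.charpoly_map] at h2
  have h3 : ∏ l, (C (N : R) * X - C ((m l : ℤ) : R)).map φ =
      C ((N : K) ^ r) * ∏ l, (X - C ((e l : ℕ) : K)) := by
    have h4 : (C ((N : K) ^ r) : K[X]) = ∏ _l : Fin r, C (N : K) := by
      rw [Finset.prod_const, Finset.card_univ, Fintype.card_fin, C_pow]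
    rw [h4, ← Finset.prod_mul_distrib]
    refine Finset.prod_congr rfl fun l _ => ?_
    rw [Polynomial.map_sub, Polynomial.map_mul, Polynomial.map_C, Polynomial.map_C,
      Polynomial.map_X, map_natCast, map_intCast, mul_sub, ← C_mul, he l]
  rw [h3] at h2
  exact mul_left_cancel₀ (C_ne_zero.mpr (pow_ne_zero _ hNK)) h2

/-- The key statement at a geometric point of characteristic `p`. -/
theorem weyl_point [CharZero R] {K : Type*} [Field K] [IsAlgClosed K] (φ : R →+* K) {p : ℕ}
    [Fact p.Prime] [CharP K p] (α : Fin n → R) (A : Fin n → Matrix (Fin r) (Fin r) R)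
    (hα : ∀ i j, i ≠ j → φ (α i) ≠ φ (α j))
    (hfull : Full (fun j => φ (α j)) (fun j => (A j).map φ))
    {N : ℕ} (hN : 0 < N) {a : ℤ} (hap : (N : ℤ) ∣ a * p + 1)
    {lam : Fin n → Fin r → ℚ} {phi : Fin r → ℚ}
    (hlam : ∀ j, HasExponents (A j) (lam j)) (hphi : HasExponents (∑ j, A j) phi)
    {m : Fin n → Fin r → ℤ} (hm : ∀ j l, (N : ℚ) * lam j l = m j l)
    {m' : Fin r → ℤ} (hm' : ∀ l, (N : ℚ) * phi l = m' l)
    {M : ℤ} (hM : ∀ j l, |m j l| ≤ M) (hM' : ∀ l, |m' l| ≤ M) (hp : 2 * M < p)
    (κ : Fin n → Fin r) (s : Fin r) (q : ℤ)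
    (hsort : ∀ j l l', l ≤ l' → lexLE a (lam j l) (lam j l'))
    (hsort' : ∀ l l', l ≤ l' → lexLE a (phi l) (phi l'))
    (hq : ∑ j, ∑ l, wt a (lam j l) - ∑ l, wt a (phi l) + ∑ j, ((κ j : ℕ) : ℚ) =
      q * r + (s : ℕ)) :
    ∃ (hh : Fin n → ℕ) (D : ℤ) (W : Fin r → K[X]),
      (∀ j, (hh j : ℚ) = p * wt a (lam j (κ j)) + lam j (κ j)) ∧
      ((D : ℚ) = p * q + (p * wt a (phi s) + phi s)) ∧ W ≠ 0 ∧
      Sol (fun j => φ (α j)) (fun j => (A j).map φ) W ∧ (∀ i, ((W i).natDegree : ℤ) ≤ D) ∧
      ∀ i, ∏ j, (X - C (φ (α j))) ^ hh j ∣ W i := by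
  classical
  have := charZero_fraction (R := R)
  have hp0 : (0 : ℤ) < p := by exact_mod_cast (Fact.out : p.Prime).pos
  have hpQ : (0 : ℚ) < p := by exact_mod_cast (Fact.out : p.Prime).pos
  have hM0 : 0 ≤ M := (abs_nonneg _).trans (hM' s)
  have hNpos : (0 : ℤ) < N := by exact_mod_cast hN
  have hNQ : (0 : ℚ) < N := by exact_mod_cast hN
  choose e helt heq t ht using fun j l => exists_rep hN (hm j l)
    (lt_of_le_of_lt (hM j l) (by omega)) hap (p := p)
  choose f hflt hfeq t' ht' using fun l => exists_rep hN (hm' l)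
    (lt_of_le_of_lt (hM' l) (by omega)) hap (p := p)
  have hNK : (N : K) ≠ 0 := by
    intro h0
    have h1 : p ∣ N := (CharP.cast_eq_zero_iff K p N).mp h0
    have h2 : (p : ℤ) ∣ a * p + 1 := (Int.natCast_dvd_natCast.mpr h1).trans hap
    have h3 : (p : ℤ) ∣ 1 := by
      have h4 : (1 : ℤ) = (a * p + 1) - a * p := by ring
      rw [h4]
      exact dvd_sub h2 (Dvd.intro_left _ rfl)
    have h4 := Int.natAbs_dvd_natAbs.mpr h3
    simp only [Int.natAbs_natCast, Int.natAbs_one, Nat.dvd_one] at h4
    exact (Fact.out : p.Prime).one_lt.ne' h4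
  have hcastK : ∀ (e t : ℤ) (m : ℤ), (N : ℤ) * e = m + p * t → (N : K) * (e : K) = (m : K) := by
    intro e t m h
    have h1 := congrArg (fun x : ℤ => (x : K)) h
    push_cast at h1
    rw [CharP.cast_eq_zero K p, zero_mul, add_zero] at h1
    exact h1
  have hAc : ∀ j, ((A j).map φ).charpoly = ∏ l, (X - C ((e j l : ℕ) : K)) := fun j =>
    (hlam j).charpoly_map hN (hm j) φ hNK fun l => by
      have := hcastK _ _ _ (ht j l)
      exact_mod_cast this
  have hAsc : (∑ j, (A j).map φ).charpoly = ∏ l, (X - C ((f l : ℕ) : K)) := by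
    have h1 : ∑ j, (A j).map φ = (∑ j, A j).map φ := by
      ext i l
      simp [Matrix.sum_apply]
    rw [h1]
    exact hphi.charpoly_map hN hm' φ hNK fun l => by
      have := hcastK _ _ _ (ht' l)
      exact_mod_cast this
  -- weights in terms of t
  have hwt : ∀ j l, (t j l : ℚ) = N * wt a (lam j l) := by
    intro j l
    have h1 : ((N : ℤ) * e j l : ℤ) = m j l + p * t j l := ht j l
    have h2 : (N : ℚ) * e j l = m j l + p * t j l := by exact_mod_cast h1
    rw [heq j l, ← hm j l] at h2
    have h3 : (p : ℚ) * (N * wt a (lam j l)) = p * t j l := by linarith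
    exact (mul_left_cancel₀ hpQ.ne' h3).symm
  have hwt' : ∀ l, (t' l : ℚ) = N * wt a (phi l) := by
    intro l
    have h1 : ((N : ℤ) * f l : ℤ) = m' l + p * t' l := ht' l
    have h2 : (N : ℚ) * f l = m' l + p * t' l := by exact_mod_cast h1
    rw [hfeq l, ← hm' l] at h2
    have h3 : (p : ℚ) * (N * wt a (phi l)) = p * t' l := by linarith
    exact (mul_left_cancel₀ hpQ.ne' h3).symm
  -- monotonicity
  have hmono : ∀ j l l', l ≤ l' → e j l ≤ e j l' := by
    intro j l l' hll
    have h1 := ht j l
    have h2 := ht j l'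
    have h3 := (abs_le.mp (hM j l)).2
    have h4 := (abs_le.mp (hM j l')).1
    rcases hsort j l l' hll with h | ⟨h, h'⟩
    · have h5 : t j l < t j l' := by
        have : (t j l : ℚ) < t j l' := by
          rw [hwt, hwt]; exact mul_lt_mul_of_pos_left h hNQ
        exact_mod_cast this
      have h6 : (N : ℤ) * e j l ≤ N * e j l' := by
        have h7 : (p : ℤ) * t j l + p ≤ p * t j l' := by nlinarith
        linarith
      exact_mod_cast le_of_mul_le_mul_left h6 hNpos
    · have h5 : (e j l : ℚ) ≤ e j l' := by rw [heq, heq, h]; linarith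
      exact_mod_cast h5
  have hmono' : ∀ l l', l ≤ l' → f l ≤ f l' := by
    intro l l' hll
    have h1 := ht' l
    have h2 := ht' l'
    have h3 := (abs_le.mp (hM' l)).2
    have h4 := (abs_le.mp (hM' l')).1
    rcases hsort' l l' hll with h | ⟨h, h'⟩
    · have h5 : t' l < t' l' := by
        have : (t' l : ℚ) < t' l' := by
          rw [hwt', hwt']; exact mul_lt_mul_of_pos_left h hNQ
        exact_mod_cast this
      have h6 : (N : ℤ) * f l ≤ N * f l' := by
        have h7 : (p : ℤ) * t' l + p ≤ p * t' l' := by nlinarith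
        linarith
      exact_mod_cast le_of_mul_le_mul_left h6 hNpos
    · have h5 : (f l : ℚ) ≤ f l' := by rw [hfeq, hfeq, h]; linarith
      exact_mod_cast h5
  -- the integer c
  let c : ℤ := q * r + (s : ℕ) - ∑ j, ((κ j : ℕ) : ℤ)
  have htr : (∑ j, ∑ l, lam j l : ℚ) = ∑ l, phi l := by
    have h1 : ((∑ j, ∑ l, lam j l : ℚ) : FractionRing R) = ((∑ l, phi l : ℚ) : FractionRing R) := by
      rw [← hphi.trace, Matrix.trace_sum, map_sum, Rat.cast_sum]
      exact Finset.sum_congr rfl fun j _ => ((hlam j).trace).symm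
    exact_mod_cast h1
  have hc : (p : ℤ) * c = ∑ j, ∑ l, (e j l : ℤ) - ∑ l, (f l : ℤ) := by
    have h1 : ((p : ℤ) * c : ℚ) = ∑ j, ∑ l, (e j l : ℚ) - ∑ l, (f l : ℚ) := by
      simp only [heq, hfeq, Finset.sum_add_distrib, ← Finset.mul_sum, c]
      push_cast
      rw [htr]
      linear_combination (-(p : ℚ)) * hq
    exact_mod_cast h1
  have hcount : ∑ j, ((Finset.univ.filter fun i => e j i < e j (κ j)).card : ℤ) + c <
      ∑ i, (((p : ℤ) * q + f s - f i) / p + 1) := by
    have h1 : ∀ j, ((Finset.univ.filter fun i => e j i < e j (κ j)).card : ℤ) ≤ ((κ j : ℕ) : ℤ) := by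
      intro j
      have h2 : (Finset.univ.filter fun i => e j i < e j (κ j)) ⊆ Finset.Iio (κ j) := by
        intro i hi
        rw [Finset.mem_filter] at hi
        rw [Finset.mem_Iio]
        by_contra hcon
        exact absurd (hmono j _ _ (not_lt.mp hcon)) (not_le.mpr hi.2)
      have h3 := Finset.card_le_card h2
      rw [Fin.card_Iio] at h3
      exact_mod_cast h3
    have h2 : ∀ i, q + (if f i ≤ f s then 1 else 0) ≤ ((p : ℤ) * q + f s - f i) / p + 1 := by
      intro i
      have h3 : (p : ℤ) * q + f s - f i = (f s - f i) + p * q := by ring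
      rw [h3, Int.add_mul_ediv_left _ _ hp0.ne']
      have h4 := hflt i
      have h5 := hflt s
      split_ifs with h6
      · have h7 : (0 : ℤ) ≤ ((f s : ℤ) - f i) / p := Int.ediv_nonneg (by omega) hp0.le
        linarith
      · have h7 : (-1 : ℤ) ≤ ((f s : ℤ) - f i) / p := by
          rw [Int.le_ediv_iff_mul_le hp0]; omega
        linarith
    have h3 : (s : ℕ) + 1 ≤ (Finset.univ.filter fun i => f i ≤ f s).card := by
      have h4 : Finset.Iic s ⊆ (Finset.univ.filter fun i => f i ≤ f s) := by
        intro i hi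
        rw [Finset.mem_Iic] at hi
        exact Finset.mem_filter.mpr ⟨Finset.mem_univ _, hmono' _ _ hi⟩
      have h5 := Finset.card_le_card h4
      rwa [Fin.card_Iic] at h5
    calc ∑ j, ((Finset.univ.filter fun i => e j i < e j (κ j)).card : ℤ) + c
        ≤ ∑ j, ((κ j : ℕ) : ℤ) + c := by
          have := Finset.sum_le_sum fun j (_ : j ∈ Finset.univ) => h1 j
          linarith
      _ = q * r + (s : ℕ) := by simp only [c]; ring
      _ < q * r + ((Finset.univ.filter fun i => f i ≤ f s).card : ℤ) := by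
          have : ((s : ℕ) : ℤ) + 1 ≤ ((Finset.univ.filter fun i => f i ≤ f s).card : ℤ) := by
            exact_mod_cast h3
          linarith
      _ = ∑ i, (q + (if f i ≤ f s then 1 else 0)) := by
          rw [Finset.sum_add_distrib, Finset.sum_const, Finset.card_univ, Fintype.card_fin,
            nsmul_eq_mul, Finset.sum_boole]
          ring
      _ ≤ ∑ i, (((p : ℤ) * q + f s - f i) / p + 1) := Finset.sum_le_sum fun i _ => h2 i
  have hinj : Function.Injective (fun j => φ (α j)) := by
    intro i j hij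
    by_contra hne
    exact hα i j hne hij
  obtain ⟨W, h1, h2, h3, h4⟩ := core hinj hfull e helt hAc f hflt hAsc c hc
    (fun j => e j (κ j)) (fun j => (helt j _).le) ((p : ℤ) * q + f s) hcount
  refine ⟨fun j => e j (κ j), (p : ℤ) * q + f s, W, fun j => heq j _, ?_, h1, h2, h3, h4⟩
  push_cast
  rw [hfeq s]

end

end Pool.Agent.W432.PC
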