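import Pool.Agent.W432.PC.Closed
import Pool.Agent.W432.PC.Points

set_option autoImplicit false

open Polynomial

namespace Pool.Agent.W432.PC

section defs

variable {R : Type*} [CommRing R] {n r : ℕ}

/-- The `p`-curvature at the closed point `𝔪` of `Spec R` vanishes: the reduction modulo `𝔪` of
`d/dx - ∑ j, A j / (x - α j)` on `k(x) ^ r`, `k = R / 𝔪`, has vanishing `p`-th iterate,
`p = char k`. -/
def PCurvZeroAt (α : Fin n → R) (A : Fin n → Matrix (Fin r) (Fin r) R) (𝔪 : Ideal R)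
    [h𝔪 : 𝔪.IsMaximal] : Prop :=
  letI : Field (R ⧸ 𝔪) := Ideal.Quotient.field 𝔪
  PCurvZero (fun j => Ideal.Quotient.mk 𝔪 (α j)) (fun j => (A j).map (Ideal.Quotient.mk 𝔪))

/-- Vanishing `p`-curvature at all closed points of a dense open subset of `Spec R`. -/
def CondII (α : Fin n → R) (A : Fin n → Matrix (Fin r) (Fin r) R) : Prop :=
  ∃ g : R, g ≠ 0 ∧ ∀ (𝔪 : Ideal R) [𝔪.IsMaximal], g ∉ 𝔪 → PCurvZeroAt α A 𝔪

/-- The system `y' = ∑ j, A j / (x - α j) y` has a nonzero solution of the form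
`∏ j, (x - α j) ^ (ν j) Z(x)` with `Z` a vector of polynomials over the fraction field. -/
def HasMonomialSolution (α : Fin n → R) (A : Fin n → Matrix (Fin r) (Fin r) R)
    (ν : Fin n → ℚ) [IsDomain R] : Prop :=
  ∃ Z : Fin r → (FractionRing R)[X], Z ≠ 0 ∧ ∀ i,
    T (fun j => algebraMap R (FractionRing R) (α j)) * derivative (Z i) +
      (∑ j, C ((ν j : ℚ) : FractionRing R) *
        Tc (fun j => algebraMap R (FractionRing R) (α j)) j) * Z i =
    (B (fun j => algebraMap R (FractionRing R) (α j))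
      (fun j => (A j).map (algebraMap R (FractionRing R)))).mulVec Z i

end defs

section

variable {K : Type*} [Field K] {n r : ℕ}

lemma T_mul_derivative_prod (α : Fin n → K) (hh : Fin n → ℕ) :
    T α * derivative (∏ j, (X - C (α j)) ^ hh j) =
      (∑ j, (hh j : K[X]) * Tc α j) * ∏ j, (X - C (α j)) ^ hh j := by
  classical
  rw [derivative_prod_finset, Finset.mul_sum, Finset.sum_mul]
  refine Finset.sum_congr rfl fun i _ => ?_
  have h1 : (X - C (α i)) * derivative ((X - C (α i)) ^ hh i) =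
      (hh i : K[X]) * (X - C (α i)) ^ hh i := by
    rw [derivative_pow]
    cases hh i with
    | zero => simp
    | succ m =>
      simp only [derivative_sub, derivative_X, derivative_C, sub_zero, mul_one,
        Nat.add_sub_cancel]
      rw [show (C ((m + 1 : ℕ) : K) : K[X]) = ((m + 1 : ℕ) : K[X]) by simp, pow_succ]
      ring
  rw [← Finset.mul_prod_erase Finset.univ (fun j => (X - C (α j)) ^ hh j) (Finset.mem_univ i),
    T_eq i]
  calc (X - C (α i)) * Tc α i * ((∏ j ∈ Finset.univ.erase i, (X - C (α j)) ^ hh j) *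
        derivative ((X - C (α i)) ^ hh i))
      = Tc α i * (∏ j ∈ Finset.univ.erase i, (X - C (α j)) ^ hh j) *
        ((X - C (α i)) * derivative ((X - C (α i)) ^ hh i)) := by ring
    _ = _ := by rw [h1]; ring

/-- Dividing a solution by its forced zeros gives a solution of the twisted equation. -/
lemma twisted_of_sol {α : Fin n → K} {A : Fin n → Matrix (Fin r) (Fin r) K}
    {W Z : Fin r → K[X]} (hW : Sol α A W) {hh : Fin n → ℕ}
    (hZ : ∀ i, W i = (∏ j, (X - C (α j)) ^ hh j) * Z i) {N : ℕ} {μ : Fin n → ℤ}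
    (hμ : ∀ j, (N : K) * (hh j : K) = (μ j : K)) : twOp N α A μ Z = 0 := by
  classical
  set P : K[X] := ∏ j, (X - C (α j)) ^ hh j with hP
  have hP0 : P ≠ 0 := Finset.prod_ne_zero_iff.mpr fun j _ => pow_ne_zero _ (X_sub_C_ne_zero _)
  have hWZ : W = P • Z := by ext1 i; rw [hZ i]; rfl
  ext1 i
  apply mul_left_cancel₀ hP0
  rw [Pi.zero_apply, mul_zero]
  have h1 := hW i
  rw [hWZ, Matrix.mulVec_smul, Pi.smul_apply, Pi.smul_apply, smul_eq_mul, smul_eq_mul,
    derivative_mul] at h1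
  have h2 := T_mul_derivative_prod α hh
  rw [← hP] at h2
  have h3 : (N : K[X]) * ∑ j, (hh j : K[X]) * Tc α j = ∑ j, (μ j : K[X]) * Tc α j := by
    rw [Finset.mul_sum]
    refine Finset.sum_congr rfl fun j _ => ?_
    rw [← mul_assoc]
    congr 1
    have := congrArg (C : K → K[X]) (hμ j)
    simpa using this
  unfold twOp
  rw [← h3]
  calc P * ((N : K[X]) * (T α * derivative (Z i)) - (N : K[X]) * (B α A).mulVec Z i +
        (N : K[X]) * (∑ j, (hh j : K[X]) * Tc α j) * Z i)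
      = (N : K[X]) * (((∑ j, (hh j : K[X]) * Tc α j) * P) * Z i + P * (T α * derivative (Z i)) -
          P * (B α A).mulVec Z i) := by ring
    _ = (N : K[X]) * (T α * (derivative P * Z i + P * derivative (Z i)) -
          P * (B α A).mulVec Z i) := by rw [← h2]; ring
    _ = 0 := by rw [h1]; ring

end

section main

universe u

variable {R : Type u} [CommRing R] [IsDomain R] [CharZero R] {n r : ℕ}

/-- Closed points of residue characteristic `p` give geometric points of characteristic `p`. -/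
lemma geometric_point {α : Fin n → R} {A : Fin n → Matrix (Fin r) (Fin r) R}
    (hα : ∀ i j, i ≠ j → IsUnit (α i - α j)) {𝔪 : Ideal R} [h𝔪 : 𝔪.IsMaximal] {p : ℕ}
    (hp : p.Prime) (hpm : (p : R) ∈ 𝔪) (hpc : PCurvZeroAt α A 𝔪) :
    ∃ (K : Type u) (_ : Field K) (_ : IsAlgClosed K) (_ : CharP K p) (φ : R →+* K),
      (∀ g, g ∉ 𝔪 → φ g ≠ 0) ∧ (∀ i j, i ≠ j → φ (α i) ≠ φ (α j)) ∧
      Full (fun j => φ (α j)) (fun j => (A j).map φ) := by
  let _ : Field (R ⧸ 𝔪) := Ideal.Quotient.field 𝔪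
  have hrc : ringChar (R ⧸ 𝔪) = p := by
    have h1 : ((p : ℕ) : R ⧸ 𝔪) = 0 := by
      have : ((p : ℕ) : R ⧸ 𝔪) = Ideal.Quotient.mk 𝔪 (p : R) := by simp
      rw [this]
      exact Ideal.Quotient.eq_zero_iff_mem.mpr hpm
    have h2 : ringChar (R ⧸ 𝔪) ∣ p := ringChar.dvd h1
    rcases (Nat.dvd_prime hp).mp h2 with h3 | h3
    · exact absurd h3 (CharP.ringChar_ne_one)
    · exact h3
  have hcharP : CharP (R ⧸ 𝔪) p := ringChar.of_eq hrc
  have hfact : Fact p.Prime := ⟨hp⟩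
  let K := AlgebraicClosure (R ⧸ 𝔪)
  let ι : (R ⧸ 𝔪) →+* K := algebraMap (R ⧸ 𝔪) K
  have hK : CharP K p := charP_of_injective_algebraMap (algebraMap (R ⧸ 𝔪) K).injective p
  refine ⟨K, inferInstance, inferInstance, hK, ι.comp (Ideal.Quotient.mk 𝔪), ?_, ?_, ?_⟩
  · intro g hg h0
    apply hg
    rw [RingHom.comp_apply, map_eq_zero_iff ι ι.injective] at h0
    exact Ideal.Quotient.eq_zero_iff_mem.mp h0
  · intro i j hij h0
    have h1 := (hα i j hij).map (ι.comp (Ideal.Quotient.mk 𝔪))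
    rw [map_sub, h0, sub_self] at h1
    exact not_isUnit_zero h1
  · apply exists_full (p := p)
    have h1 := Q_eq_zero_of_pCurvZero hpc
    rw [hrc] at h1
    have h2 := Q_map ι (fun j => Ideal.Quotient.mk 𝔪 (α j))
      (fun j => (A j).map (Ideal.Quotient.mk 𝔪)) p
    rw [h1] at h2
    rw [show Q (fun j => (ι.comp (Ideal.Quotient.mk 𝔪)) (α j))
      (fun j => (A j).map (ι.comp (Ideal.Quotient.mk 𝔪))) p =
      Q (fun j => ι (Ideal.Quotient.mk 𝔪 (α j)))
        (fun j => ((A j).map (Ideal.Quotient.mk 𝔪)).map ι) p by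
        congr 1]
    rw [← h2]
    ext1 i l
    simp

/-- The same geometric point carries full families of solutions of the dual system. -/
lemma geometric_point' {α : Fin n → R} {A A' : Fin n → Matrix (Fin r) (Fin r) R}
    (hA' : A' = A ∨ A' = fun j => -(A j).transpose)
    (hα : ∀ i j, i ≠ j → IsUnit (α i - α j)) {𝔪 : Ideal R} [h𝔪 : 𝔪.IsMaximal] {p : ℕ}
    (hp : p.Prime) (hpm : (p : R) ∈ 𝔪) (hpc : PCurvZeroAt α A 𝔪) :
    ∃ (K : Type u) (_ : Field K) (_ : IsAlgClosed K) (_ : CharP K p) (φ : R →+* K),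
      (∀ g, g ∉ 𝔪 → φ g ≠ 0) ∧ (∀ i j, i ≠ j → φ (α i) ≠ φ (α j)) ∧
      Full (fun j => φ (α j)) (fun j => (A' j).map φ) := by
  have hfact : Fact p.Prime := ⟨hp⟩
  obtain ⟨K, iF, iA, iC, φ, h1, h2, h3⟩ := geometric_point hα hp hpm hpc
  rcases hA' with rfl | rfl
  · exact ⟨K, iF, iA, iC, φ, h1, h2, h3⟩
  · refine ⟨K, iF, iA, iC, φ, h1, h2, ?_⟩
    have h4 := h3.dual (p := p)
    have h5 : (fun j => ((-(A j).transpose).map φ)) = fun j => -((A j).map φ).transpose := by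
      ext1 j
      ext1 i l
      simp
    rw [h5]
    exact h4

theorem main (α : Fin n → R) (hα : ∀ i j, i ≠ j → IsUnit (α i - α j))
    (A A' : Fin n → Matrix (Fin r) (Fin r) R)
    (hA' : A' = A ∨ A' = fun j => -(A j).transpose)
    (lam : Fin n → Fin r → ℚ) (phi : Fin r → ℚ)
    (hlam : ∀ j, HasExponents (A' j) (lam j)) (hphi : HasExponents (∑ j, A' j) phi)
    (N : ℕ) (hN : 0 < N) (hNlam : ∀ j l, ∃ m : ℤ, (N : ℚ) * lam j l = m)
    (hNphi : ∀ l, ∃ m : ℤ, (N : ℚ) * phi l = m) (a : ℤ)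
    (hsort : ∀ j l l', l ≤ l' → lexLE a (lam j l) (lam j l'))
    (hsort' : ∀ l l', l ≤ l' → lexLE a (phi l) (phi l'))
    (κ : Fin n → Fin r) (s : Fin r) (q : ℤ)
    (hq : ∑ j, ∑ l, wt a (lam j l) - ∑ l, wt a (phi l) + ∑ j, ((κ j : ℕ) : ℚ) =
      q * r + (s : ℕ))
    (hle : q + wt a (phi s) ≤ ∑ j, wt a (lam j (κ j)))
    (heq : q + wt a (phi s) = ∑ j, wt a (lam j (κ j)) →
      ¬ HasMonomialSolution α A' (fun j => lam j (κ j))) :
    ∃ g : R, g ≠ 0 ∧ (q + wt a (phi s) < ∑ j, wt a (lam j (κ j)) → g = 1) ∧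
      ∃ P₀ : ℕ, ∀ p : ℕ, p.Prime → P₀ < p → (N : ℤ) ∣ a * p + 1 →
        ∀ (𝔪 : Ideal R) [𝔪.IsMaximal], (p : R) ∈ 𝔪 → g ∉ 𝔪 → ¬ PCurvZeroAt α A 𝔪 := by
  classical
  choose m hm using hNlam
  choose m' hm' using hNphi
  -- a common bound
  let M : ℤ := ∑ j, ∑ l, |m j l| + ∑ l, |m' l|
  have hM : ∀ j l, |m j l| ≤ M := by
    intro j l
    have h1 : |m j l| ≤ ∑ l, |m j l| :=
      Finset.single_le_sum (f := fun l => |m j l|) (fun _ _ => abs_nonneg _) (Finset.mem_univ l)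
    have h2 : ∑ l, |m j l| ≤ ∑ j, ∑ l, |m j l| :=
      Finset.single_le_sum (f := fun j => ∑ l, |m j l|)
        (fun _ _ => Finset.sum_nonneg fun _ _ => abs_nonneg _) (Finset.mem_univ j)
    have h3 : 0 ≤ ∑ l, |m' l| := Finset.sum_nonneg fun _ _ => abs_nonneg _
    simp only [M]; linarith
  have hM' : ∀ l, |m' l| ≤ M := by
    intro l
    have h1 : |m' l| ≤ ∑ l, |m' l| :=
      Finset.single_le_sum (f := fun l => |m' l|) (fun _ _ => abs_nonneg _) (Finset.mem_univ l)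
    have h3 : 0 ≤ ∑ j, ∑ l, |m j l| :=
      Finset.sum_nonneg fun _ _ => Finset.sum_nonneg fun _ _ => abs_nonneg _
    simp only [M]; linarith
  -- common part
  have hpt : ∀ p : ℕ, p.Prime → 2 * M < p → (N : ℤ) ∣ a * p + 1 →
      ∀ (𝔪 : Ideal R) [𝔪.IsMaximal], (p : R) ∈ 𝔪 → PCurvZeroAt α A 𝔪 →
      ∃ (K : Type u) (_ : Field K) (_ : CharP K p) (φ : R →+* K) (Z : Fin r → K[X]) (hh : Fin n → ℕ)
        (D : ℤ), (∀ g, g ∉ 𝔪 → φ g ≠ 0) ∧
        (∀ j, (hh j : ℚ) = p * wt a (lam j (κ j)) + lam j (κ j)) ∧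
        ((D : ℚ) = p * q + (p * wt a (phi s) + phi s)) ∧ Z ≠ 0 ∧
        (∀ i, ((Z i).natDegree : ℤ) ≤ max 0 (D - ∑ j, (hh j : ℤ))) ∧
        ∑ j, (hh j : ℤ) ≤ D ∧
        twOp N (fun j => φ (α j)) (fun j => (A' j).map φ) (fun j => m j (κ j)) Z = 0 := by
    intro p hp hpM hap 𝔪 _ hpm hpc
    have : Fact p.Prime := ⟨hp⟩
    obtain ⟨K, iF, iA, iC, φ, h1, h2, h3⟩ := geometric_point' hA' hα hp hpm hpc
    obtain ⟨hh, D, W, k1, k2, k3, k4, k5, k6⟩ := weyl_point φ α A' h2 h3 hN hap hlam hphi hm hm' hM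
      hM' hpM κ s q hsort hsort' hq
    choose Z hZ using k6
    have hP0 : (∏ j, (X - C (φ (α j))) ^ hh j : K[X]) ≠ 0 :=
      Finset.prod_ne_zero_iff.mpr fun j _ => pow_ne_zero _ (X_sub_C_ne_zero _)
    have hPd : (∏ j, (X - C (φ (α j))) ^ hh j : K[X]).natDegree = ∑ j, hh j :=
      natDegree_prod_pow (α := fun j => φ (α j)) hh
    have hdeg : ∀ i, Z i ≠ 0 → ((Z i).natDegree : ℤ) + ∑ j, (hh j : ℤ) ≤ D := by
      intro i hi
      have h4 := k5 i
      rw [hZ i, natDegree_mul hP0 hi, hPd] at h4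
      push_cast at h4
      linarith
    have hZ0 : Z ≠ 0 := by
      rintro rfl
      apply k3
      ext1 i
      rw [hZ i, Pi.zero_apply, mul_zero]
    obtain ⟨i₀, hi₀⟩ := Function.ne_iff.mp hZ0
    refine ⟨K, iF, iC, φ, Z, hh, D, h1, k1, k2, hZ0, ?_, ?_, ?_⟩
    · intro i
      by_cases hi : Z i = 0
      · rw [hi]; simp
      · have := hdeg i hi
        exact le_max_of_le_right (by linarith)
    · have := hdeg i₀ hi₀
      have h5 : (0 : ℤ) ≤ (Z i₀).natDegree := Int.natCast_nonneg _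
      linarith
    · refine twisted_of_sol k4 hZ fun j => ?_
      have h6 : (N : ℚ) * hh j = m j (κ j) + p * (N * wt a (lam j (κ j))) := by
        rw [k1 j, ← hm j (κ j)]; ring
      -- the weight has denominator dividing N
      obtain ⟨e, -, he, t, ht⟩ := exists_rep hN (hm j (κ j))
        (lt_of_le_of_lt (hM j (κ j)) (by
          have : 0 ≤ M := (abs_nonneg _).trans (hM' s)
          omega)) hap (p := p)
      have h7 : (hh j : ℚ) = (e : ℚ) := by rw [k1 j, he]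
      have h8 : hh j = e := by exact_mod_cast h7
      rw [h8]
      have h9 := congrArg (fun x : ℤ => (x : K)) ht
      push_cast at h9
      rw [CharP.cast_eq_zero K p, zero_mul, add_zero] at h9
      exact h9
  rcases lt_or_eq_of_le hle with hlt | heq'
  · -- strict violation
    refine ⟨1, one_ne_zero, fun _ => rfl, ?_⟩
    set ε : ℚ := ∑ j, wt a (lam j (κ j)) - (q + wt a (phi s)) with hε
    have hε0 : 0 < ε := by rw [hε]; linarith
    refine ⟨max (2 * M).toNat ⌈(phi s - ∑ j, lam j (κ j)) / ε⌉₊, ?_⟩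
    intro p hp hpP hap 𝔪 _ hpm _ hpc
    have hp1 : (2 * M).toNat < p := lt_of_le_of_lt (le_max_left _ _) hpP
    have hp2 : ⌈(phi s - ∑ j, lam j (κ j)) / ε⌉₊ < p := lt_of_le_of_lt (le_max_right _ _) hpP
    obtain ⟨K, _, _, φ, Z, hh, D, -, k1, k2, -, -, k5, -⟩ := hpt p hp (by omega) hap 𝔪 hpm hpc
    have h1 : (∑ j, (hh j : ℚ)) ≤ D := by exact_mod_cast k5
    rw [k2] at h1
    simp only [k1, Finset.sum_add_distrib, ← Finset.mul_sum] at h1
    have h2 : (p : ℚ) * ε ≤ phi s - ∑ j, lam j (κ j) := by rw [hε]; linarith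
    have h3 : (p : ℚ) ≤ (phi s - ∑ j, lam j (κ j)) / ε := by
      rw [le_div_iff₀ hε0]; exact h2
    have h4 : (p : ℚ) ≤ (⌈(phi s - ∑ j, lam j (κ j)) / ε⌉₊ : ℚ) := h3.trans (Nat.le_ceil _)
    have h5 : p ≤ ⌈(phi s - ∑ j, lam j (κ j)) / ε⌉₊ := by exact_mod_cast h4
    omega
  · -- equality
    have hno := heq heq'
    let δ : ℕ := ⌈phi s - ∑ j, lam j (κ j)⌉₊
    have hgen : ∀ Z : Fin r → (FractionRing R)[X],
        twOp N (fun j => algebraMap R (FractionRing R) (α j))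
          (fun j => (A' j).map (algebraMap R (FractionRing R))) (fun j => m j (κ j)) Z = 0 →
        Z = 0 := by
      intro Z hZ
      by_contra hZ0
      refine hno ⟨Z, hZ0, fun i => ?_⟩
      have := charZero_fraction (R := R)
      have h1 := congrFun hZ i
      simp only [twOp, Pi.zero_apply] at h1
      have hN0 : (N : (FractionRing R)[X]) ≠ 0 := by exact_mod_cast hN.ne'
      have h2 : ∑ j, ((m j (κ j) : ℤ) : (FractionRing R)[X]) *
          Tc (fun j => algebraMap R (FractionRing R) (α j)) j =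
          (N : (FractionRing R)[X]) * ∑ j, C ((lam j (κ j) : ℚ) : FractionRing R) *
          Tc (fun j => algebraMap R (FractionRing R) (α j)) j := by
        rw [Finset.mul_sum]
        refine Finset.sum_congr rfl fun j _ => ?_
        rw [← mul_assoc]
        congr 1
        have h3 : (N : FractionRing R) * ((lam j (κ j) : ℚ) : FractionRing R) =
            ((m j (κ j) : ℤ) : FractionRing R) := by
          exact_mod_cast congrArg (fun x : ℚ => (x : FractionRing R)) (hm j (κ j))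
        have h4 := congrArg (C : FractionRing R → (FractionRing R)[X]) h3
        rw [map_mul] at h4
        simpa using h4.symm
      rw [h2] at h1
      apply mul_left_cancel₀ hN0
      linear_combination h1
    obtain ⟨g, hg, hgood⟩ := exists_good.{u} N α A' (fun j => m j (κ j)) hgen δ
    refine ⟨g, hg, fun h => absurd heq' h.ne, (2 * M).toNat, ?_⟩
    intro p hp hpP hap 𝔪 _ hpm hgm hpc
    obtain ⟨K, _, _, φ, Z, hh, D, k0, k1, k2, k3, k4, k5, k6⟩ :=
      hpt p hp (by omega) hap 𝔪 hpm hpc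
    apply k3
    refine hgood K φ (k0 g hgm) Z (fun i => ?_) k6
    have h1 : ((D - ∑ j, (hh j : ℤ) : ℤ) : ℚ) = phi s - ∑ j, lam j (κ j) := by
      push_cast
      rw [k2]
      simp only [k1, Finset.sum_add_distrib, ← Finset.mul_sum]
      linear_combination (p : ℚ) * heq'
    have h2 : D - ∑ j, (hh j : ℤ) ≤ (δ : ℤ) := by
      have h3 : ((D - ∑ j, (hh j : ℤ) : ℤ) : ℚ) ≤ ((δ : ℤ) : ℚ) := by
        rw [h1]
        simp only [δ, Int.cast_natCast]
        exact Nat.le_ceil _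
      exact_mod_cast h3
    have h3 := k4 i
    have h4 : ((Z i).natDegree : ℤ) ≤ (δ : ℤ) := h3.trans (max_le (Int.natCast_nonneg _) h2)
    exact_mod_cast h4

theorem not_condII_of [Algebra.FiniteType ℤ R] (α : Fin n → R)
    (A : Fin n → Matrix (Fin r) (Fin r) R) (N : ℕ) (hN : 0 < N) (a : ℤ) (ha : IsCoprime a (N : ℤ))
    (h : ∃ g : R, g ≠ 0 ∧ ∃ P₀ : ℕ, ∀ p : ℕ, p.Prime → P₀ < p → (N : ℤ) ∣ a * p + 1 →
        ∀ (𝔪 : Ideal R) [𝔪.IsMaximal], (p : R) ∈ 𝔪 → g ∉ 𝔪 → ¬ PCurvZeroAt α A 𝔪) :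
    ¬ CondII α A := by
  rintro ⟨g', hg', hII⟩
  obtain ⟨g, hg, P₀, h⟩ := h
  obtain ⟨P₁, hP₁⟩ := exists_closed_point R (mul_ne_zero hg hg')
  have : NeZero N := ⟨hN.ne'⟩
  -- a residue class
  obtain ⟨u, v, huv⟩ := ha
  have hunit : IsUnit (((-u : ℤ)) : ZMod N) := by
    refine IsUnit.of_mul_eq_one ((-a : ℤ) : ZMod N) ?_
    have h1 : (((u * a + v * N : ℤ)) : ZMod N) = 1 := by rw [huv]; simp
    push_cast at h1 ⊢
    rw [ZMod.natCast_self, mul_zero, add_zero] at h1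
    rw [neg_mul_neg]; exact h1
  obtain ⟨p, hpgt, hpp, hpeq⟩ := Nat.forall_exists_prime_gt_and_eq_mod hunit (max P₀ P₁)
  have hap : (N : ℤ) ∣ a * p + 1 := by
    rw [← ZMod.intCast_zmod_eq_zero_iff_dvd]
    push_cast
    rw [hpeq]
    have h1 : (((u * a + v * N : ℤ)) : ZMod N) = 1 := by rw [huv]; simp
    push_cast at h1 ⊢
    rw [ZMod.natCast_self, mul_zero, add_zero] at h1
    linear_combination -h1
  obtain ⟨𝔪, h𝔪, hpm, hgm⟩ := hP₁ p hpp (lt_of_le_of_lt (le_max_right _ _) hpgt)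
  have hg1 : g ∉ 𝔪 := fun h0 => hgm (Ideal.mul_mem_right _ _ h0)
  have hg2 : g' ∉ 𝔪 := fun h0 => hgm (Ideal.mul_mem_left _ _ h0)
  exact h p hpp (lt_of_le_of_lt (le_max_left _ _) hpgt) hap 𝔪 hpm hg1 (hII 𝔪 hg2)

end main

end Pool.Agent.W432.PC
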