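import Pool.Agent.W432.PC.MinFam

set_option autoImplicit false

open Polynomial

namespace Pool.Agent.W432.PC

section

variable {k : Type*} [Field k] {n r : ℕ} {α : Fin n → k} {A : Fin n → Matrix (Fin r) (Fin r) k}

lemma coeff_prod_of_natDegree_le' {R ι : Type*} [CommRing R] (s : Finset ι) (f : ι → R[X])
    (d : ι → ℕ) (h : ∀ i ∈ s, (f i).natDegree ≤ d i) :
    (∏ i ∈ s, f i).coeff (∑ i ∈ s, d i) = ∏ i ∈ s, (f i).coeff (d i) := by
  classical
  induction s using Finset.induction_on with
  | empty => simp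
  | insert a s ha ih =>
    have h1 : ∀ i ∈ s, (f i).natDegree ≤ d i := fun i hi => h i (Finset.mem_insert_of_mem hi)
    have h2 : (∏ i ∈ s, f i).natDegree ≤ ∑ i ∈ s, d i :=
      (natDegree_prod_le _ _).trans (Finset.sum_le_sum h1)
    rw [Finset.prod_insert ha, Finset.sum_insert ha, Finset.prod_insert ha,
      coeff_mul_add_eq_of_natDegree_le (h a (Finset.mem_insert_self a s)) h2, ih h1]

lemma coeff_det_of_natDegree_le (Y : Matrix (Fin r) (Fin r) k[X]) (d : Fin r → ℕ)
    (h : ∀ i l, (Y i l).natDegree ≤ d i) :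
    Y.det.coeff (∑ i, d i) = (Matrix.of fun i l => (Y i l).coeff (d i)).det := by
  rw [Matrix.det_apply, Matrix.det_apply, finsetSum_coeff]
  refine Finset.sum_congr rfl fun σ _ => ?_
  rw [Units.smul_def, Units.smul_def, coeff_smul]
  congr 1
  have h1 : ∑ i, d i = ∑ i, d (σ i) := (Equiv.sum_comp σ d).symm
  rw [h1, coeff_prod_of_natDegree_le' Finset.univ (fun i => Y (σ i) i) (fun i => d (σ i))
    fun i _ => h _ _]
  rfl

lemma natDegree_X_mul_Tc (j : Fin n) : (X * Tc α j).natDegree = n := by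
  have h1 := T_eq (α := α) j
  have h2 : (T α).natDegree = 1 + (Tc α j).natDegree := by
    rw [h1, natDegree_mul (X_sub_C_ne_zero _) (Tc_monic j).ne_zero, natDegree_X_sub_C]
  rw [T_natDegree] at h2
  rw [natDegree_mul X_ne_zero (Tc_monic j).ne_zero, natDegree_X, ← h2]

lemma coeff_X_mul_Tc (j : Fin n) : (X * Tc α j).coeff n = 1 := by
  have h := (monic_X.mul (Tc_monic (α := α) j))
  have h2 := h.coeff_natDegree
  rwa [natDegree_X_mul_Tc] at h2

/-- At infinity the leading coefficient vector is an eigenvector of the sum of the residues. -/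
lemma infinity_eq {y : Fin r → k[X]} (hy : Sol α A y) {d : ℕ} (hd : ∀ i, (y i).natDegree ≤ d) :
    (∑ j, A j).mulVec (fun i => (y i).coeff d) = (d : k) • (fun i => (y i).coeff d) := by
  ext1 i
  have h1 : T α * (X * derivative (y i)) = ∑ j, (X * Tc α j) * ∑ l, C (A j i l) * y l := by
    have h2 := hy i
    rw [mulVec_B] at h2
    calc T α * (X * derivative (y i)) = X * (T α * derivative (y i)) := by ring
      _ = _ := by rw [h2, Finset.mul_sum]; exact Finset.sum_congr rfl fun j _ => by ring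
  have h2 : (T α * (X * derivative (y i))).coeff (n + d) =
      (∑ j, (X * Tc α j) * ∑ l, C (A j i l) * y l).coeff (n + d) := by rw [h1]
  have h3 : (X * derivative (y i)).natDegree ≤ d := by
    by_cases h0 : derivative (y i) = 0
    · rw [h0]; simp
    · rw [natDegree_mul X_ne_zero h0, natDegree_X]
      have h4 := natDegree_derivative_lt (p := y i) (fun h00 => h0 (by
        rw [eq_C_of_natDegree_eq_zero h00]; simp))
      have := hd i
      omega
  have h4 : (X * derivative (y i)).coeff d = (d : k) * (y i).coeff d := by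
    cases d with
    | zero => simp
    | succ m =>
      rw [coeff_X_mul, coeff_derivative]
      push_cast
      ring
  have h5 : (T α * (X * derivative (y i))).coeff (n + d) = (d : k) * (y i).coeff d := by
    rw [coeff_mul_add_eq_of_natDegree_le T_natDegree.le h3, h4]
    have := T_monic (α := α)
    have h6 := this.coeff_natDegree
    rw [T_natDegree] at h6
    rw [h6, one_mul]
  rw [h5, finsetSum_coeff] at h2
  rw [Pi.smul_apply, smul_eq_mul, h2, Matrix.sum_mulVec, Finset.sum_apply]
  refine Finset.sum_congr rfl fun j _ => ?_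
  have h6 : (∑ l, C (A j i l) * y l).natDegree ≤ d :=
    natDegree_sum_le_of_forall_le _ _ fun l _ => (natDegree_C_mul_le _ _).trans (hd l)
  rw [coeff_mul_add_eq_of_natDegree_le (natDegree_X_mul_Tc j).le h6, coeff_X_mul_Tc, one_mul,
    finsetSum_coeff]
  simp only [coeff_C_mul]
  rfl

/-- The leading vectors of a minimal family are independent. -/
lemma MinFam.lead_det {Y : Matrix (Fin r) (Fin r) k[X]} (h : MinFam α A Y)
    (p : ℕ) [Fact p.Prime] [CharP k p] :
    (Matrix.of fun i l => (Y i l).coeff (vdeg (Y i))).det ≠ 0 := by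
  classical
  intro h0
  let c : Matrix (Fin r) (Fin r) k := Matrix.of fun i l => (Y i l).coeff (vdeg (Y i))
  have hc : ∀ i, (Matrix.mulVecLin (∑ j, A j)) (c i) = ((vdeg (Y i) : ℕ) : k) • c i := by
    intro i
    rw [Matrix.mulVecLin_apply]
    exact infinity_eq (h.sol i) (natDegree_le_vdeg (Y i))
  obtain ⟨l, hl, hsum, ν, hν⟩ := exists_relation_single (Matrix.mulVecLin (∑ j, A j)) c
    (fun i => ((vdeg (Y i) : ℕ) : k)) hc (exists_row_relation c h0)
  have hne : (Finset.univ.filter fun i => l i ≠ 0).Nonempty := by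
    obtain ⟨i, hi⟩ := Function.ne_iff.mp hl
    exact ⟨i, Finset.mem_filter.mpr ⟨Finset.mem_univ i, hi⟩⟩
  obtain ⟨i₀, hi₀, hmax⟩ := Finset.exists_max_image _ (fun i => vdeg (Y i)) hne
  have hi₀' : l i₀ ≠ 0 := (Finset.mem_filter.mp hi₀).2
  have hmax' : ∀ i, l i ≠ 0 → vdeg (Y i) ≤ vdeg (Y i₀) := fun i hi =>
    hmax i (Finset.mem_filter.mpr ⟨Finset.mem_univ i, hi⟩)
  -- the new vector
  let g : Fin r → k[X] := fun i => C (l i) * X ^ (vdeg (Y i₀) - vdeg (Y i))
  let Z : Fin r → k[X] := ∑ i, g i • Y i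
  have hg : ∀ i, derivative (g i) = 0 := by
    intro i
    by_cases hi : l i = 0
    · simp [g, hi]
    · have h1 : ((vdeg (Y i) : ℕ) : k) = ((vdeg (Y i₀) : ℕ) : k) := by
        rw [hν i hi, hν i₀ hi₀']
      have h2 : p ∣ vdeg (Y i₀) - vdeg (Y i) := by
        rw [← CharP.cast_eq_zero_iff k p, Nat.cast_sub (hmax' i hi), h1, sub_self]
      simp only [g, derivative_mul, derivative_C, zero_mul, zero_add]
      rw [derivative_pow_mul (p := p) X h2, mul_zero]
  have hsolZ : Sol α A Z := Sol.sum _ fun i _ => (h.sol i).smul (hg i)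
  have hdetZ : (Y.updateRow i₀ Z).det ≠ 0 := by
    rw [det_updateRow_sum' Y g i₀]
    refine mul_ne_zero ?_ h.det
    simp only [g, Nat.sub_self, pow_zero, mul_one]
    exact C_ne_zero.mpr hi₀'
  have h1 := h.exchange i₀ hsolZ hdetZ
  have hZdeg : ∀ j, (Z j).natDegree ≤ vdeg (Y i₀) := by
    intro j
    simp only [Z, Finset.sum_apply, Pi.smul_apply, smul_eq_mul, g]
    refine natDegree_sum_le_of_forall_le _ _ fun i _ => ?_
    by_cases hi : l i = 0
    · simp [hi]
    · rw [mul_assoc]
      refine (natDegree_C_mul_le _ _).trans (natDegree_mul_le.trans ?_)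
      rw [natDegree_X_pow]
      have := hmax' i hi
      have := natDegree_le_vdeg (Y i) j
      omega
  have hZcoeff : ∀ j, (Z j).coeff (vdeg (Y i₀)) = 0 := by
    intro j
    have h2 : ∑ i, l i * (Y i j).coeff (vdeg (Y i)) = 0 := by
      have h3 := congrFun hsum j
      rw [Finset.sum_apply] at h3
      exact h3
    simp only [Z, Finset.sum_apply, Pi.smul_apply, smul_eq_mul, g, finsetSum_coeff]
    rw [← h2]
    refine Finset.sum_congr rfl fun i _ => ?_
    rw [mul_assoc, coeff_C_mul]
    by_cases hi : l i = 0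
    · simp [hi]
    · congr 1
      rw [coeff_X_pow_mul', if_pos (Nat.sub_le _ _), Nat.sub_sub_self (hmax' i hi)]
  have hZ0 : Z ≠ 0 := by
    intro h00
    exact hdetZ (Matrix.det_eq_zero_of_row_eq_zero i₀ fun j => by
      rw [Matrix.updateRow_self, h00]; rfl)
  obtain ⟨j, hj⟩ := Function.ne_iff.mp hZ0
  have h2 : vdeg Z < vdeg (Y i₀) := by
    obtain ⟨j', -, hj'⟩ := Finset.exists_mem_eq_sup (Finset.univ : Finset (Fin r))
      ⟨j, Finset.mem_univ j⟩ (fun i => (Z i).natDegree)
    have h3 : vdeg Z = (Z j').natDegree := hj'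
    by_contra hle
    have h4 : (Z j').natDegree = vdeg (Y i₀) := by
      have := hZdeg j'
      omega
    have h5 : Z j' = 0 := by
      rw [← leadingCoeff_eq_zero, leadingCoeff, h4]
      exact hZcoeff j'
    have h6 : vdeg Z = 0 := by rw [h3, h5]; simp
    have h7 : vdeg (Y i₀) = 0 := by omega
    have h8 : (Z j).natDegree = vdeg (Y i₀) := by
      have := hZdeg j
      omega
    apply hj
    rw [Pi.zero_apply, ← leadingCoeff_eq_zero, leadingCoeff, h8]
    exact hZcoeff j
  omega

lemma MinFam.sum_vdeg_le {Y : Matrix (Fin r) (Fin r) k[X]} (h : MinFam α A Y)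
    (p : ℕ) [Fact p.Prime] [CharP k p] :
    ∑ i, vdeg (Y i) ≤ Y.det.natDegree := by
  apply le_natDegree_of_ne_zero
  rw [coeff_det_of_natDegree_le Y (fun i => vdeg (Y i)) fun i l => natDegree_le_vdeg (Y i) l]
  exact h.lead_det p

lemma MinFam.charpoly_sum {Y : Matrix (Fin r) (Fin r) k[X]} (h : MinFam α A Y)
    (p : ℕ) [Fact p.Prime] [CharP k p] :
    (∑ j, A j).charpoly = ∏ i, (X - C ((vdeg (Y i) : ℕ) : k)) := by
  refine charpoly_of_eigenrows _ (Matrix.of fun i l => (Y i l).coeff (vdeg (Y i))) _ ?_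
    (h.lead_det p)
  intro i
  exact infinity_eq (h.sol i) (natDegree_le_vdeg (Y i))

end

end Pool.Agent.W432.PC
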