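import Pool.Agent.W432.PC.Basic

set_option autoImplicit false

open Polynomial

namespace Pool.Agent.W432.PC

/-- A dependent family of eigenvectors has a nontrivial relation supported on a single
eigenvalue. -/
lemma exists_relation_single {k V ι : Type*} [Field k] [AddCommGroup V] [Module k V] [Fintype ι]
    (f : V →ₗ[k] V) (c : ι → V) (μ : ι → k) (hc : ∀ i, f (c i) = μ i • c i)
    (hdep : ∃ l : ι → k, l ≠ 0 ∧ ∑ i, l i • c i = 0) :
    ∃ l : ι → k, l ≠ 0 ∧ ∑ i, l i • c i = 0 ∧ ∃ ν, ∀ i, l i ≠ 0 → μ i = ν := by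
  classical
  let S : Set ℕ := {m | ∃ l : ι → k, l ≠ 0 ∧ ∑ i, l i • c i = 0 ∧
    (Finset.univ.filter fun i => l i ≠ 0).card = m}
  have hS : S.Nonempty := by
    obtain ⟨l, h1, h2⟩ := hdep
    exact ⟨_, l, h1, h2, rfl⟩
  obtain ⟨l, h1, h2, h3⟩ := Nat.sInf_mem hS
  obtain ⟨i₀, hi₀⟩ := Function.ne_iff.mp h1
  refine ⟨l, h1, h2, μ i₀, fun i hi => ?_⟩
  by_contra hne
  let l' : ι → k := fun i => l i * (μ i - μ i₀)
  have h4 : ∑ i, l' i • c i = 0 := by
    have h5 : f (∑ i, l i • c i) = 0 := by rw [h2, map_zero]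
    rw [map_sum] at h5
    have h6 : ∑ i, l' i • c i = ∑ i, f (l i • c i) - μ i₀ • ∑ i, l i • c i := by
      rw [Finset.smul_sum, ← Finset.sum_sub_distrib]
      refine Finset.sum_congr rfl fun i _ => ?_
      rw [map_smul, hc i]
      simp only [l', smul_smul]
      rw [← sub_smul]
      congr 1
      ring
    rw [h6, h5, h2, smul_zero, sub_zero]
  have h5 : l' ≠ 0 := by
    intro h0
    have := congrFun h0 i
    simp only [l', Pi.zero_apply, mul_eq_zero] at this
    rcases this with h | h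
    · exact hi h
    · exact hne (sub_eq_zero.mp h)
  have h6 : (Finset.univ.filter fun i => l' i ≠ 0).card ∈ S := ⟨l', h5, h4, rfl⟩
  have h7 := Nat.sInf_le h6
  have h8 : (Finset.univ.filter fun i => l' i ≠ 0).card <
      (Finset.univ.filter fun i => l i ≠ 0).card := by
    apply Finset.card_lt_card
    refine ⟨fun i hi => ?_, fun hsub => ?_⟩
    · rw [Finset.mem_filter] at hi ⊢
      refine ⟨hi.1, fun h0 => hi.2 ?_⟩
      simp [l', h0]
    · have : i₀ ∈ Finset.univ.filter fun i => l' i ≠ 0 :=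
        hsub (Finset.mem_filter.mpr ⟨Finset.mem_univ _, hi₀⟩)
      rw [Finset.mem_filter] at this
      exact this.2 (by simp [l'])
  omega

/-- If the rows `c i` of an invertible matrix are eigenvectors of `M` with eigenvalues `μ i`
then the characteristic polynomial of `M` is `∏ (X - μ i)`. -/
lemma charpoly_of_eigenrows {k : Type*} [Field k] {r : ℕ} (M c : Matrix (Fin r) (Fin r) k)
    (μ : Fin r → k) (hc : ∀ i, M.mulVec (c i) = μ i • c i) (hdet : c.det ≠ 0) :
    M.charpoly = ∏ i, (X - C (μ i)) := by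
  have h1 : c * M.transpose = Matrix.diagonal μ * c := by
    ext i l
    rw [Matrix.diagonal_mul]
    have := congrFun (hc i) l
    rw [Pi.smul_apply, smul_eq_mul] at this
    rw [← this, Matrix.mul_apply]
    simp only [Matrix.transpose_apply, Matrix.mulVec, dotProduct]
    exact Finset.sum_congr rfl fun x _ => mul_comm _ _
  have hu : IsUnit c := (Matrix.isUnit_iff_isUnit_det c).mpr (isUnit_iff_ne_zero.mpr hdet)
  obtain ⟨u, rfl⟩ := hu
  have h2 : M.transpose = (u⁻¹ : (Matrix (Fin r) (Fin r) k)ˣ).val * Matrix.diagonal μ * u.val := by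
    rw [mul_assoc, ← h1, ← mul_assoc]
    simp
  rw [← Matrix.charpoly_transpose, h2]
  have h3 := Matrix.charpoly_units_conj' u (Matrix.diagonal μ)
  rw [← Matrix.coe_units_inv] at h3
  rw [h3]
  exact Matrix.charpoly_diagonal μ

/-- A matrix with zero determinant has a nontrivial relation between its rows. -/
lemma exists_row_relation {k : Type*} [Field k] {r : ℕ} (c : Matrix (Fin r) (Fin r) k)
    (hdet : c.det = 0) : ∃ l : Fin r → k, l ≠ 0 ∧ ∑ i, l i • c i = 0 := by
  obtain ⟨l, h1, h2⟩ := Matrix.exists_vecMul_eq_zero_iff.mpr hdet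
  refine ⟨l, h1, ?_⟩
  rw [← h2]
  ext1 j
  rw [Finset.sum_apply]
  simp only [Matrix.vecMul, dotProduct, Pi.smul_apply, smul_eq_mul]

/-- Updating a row by a combination multiplies the determinant by the coefficient. -/
lemma det_updateRow_sum' {R : Type*} [CommRing R] {r : ℕ} (c : Matrix (Fin r) (Fin r) R)
    (l : Fin r → R) (i₀ : Fin r) :
    (c.updateRow i₀ (∑ i, l i • c i)).det = l i₀ * c.det := by
  rw [Matrix.det_updateRow_sum c i₀ l, smul_eq_mul]

end Pool.Agent.W432.PC
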