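import Pool.Agent.W432.PC.Arith

set_option autoImplicit false

open Polynomial

namespace Pool.Agent.W432.PC

universe u

/-- A matrix with trivial kernel over the fraction field keeps a trivial kernel after every
specialisation outside the zero set of some nonzero element. -/
lemma exists_ne_zero_of_trivial_kernel {R : Type*} [CommRing R] [IsDomain R] {a b : Type*}
    [Fintype a] [Fintype b] [DecidableEq a] [DecidableEq b] (M : Matrix a b R)
    (h : ∀ v : b → FractionRing R, (M.map (algebraMap R (FractionRing R))).mulVec v = 0 → v = 0) :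
    ∃ g : R, g ≠ 0 ∧ ∀ (K : Type u) [Field K] (φ : R →+* K), φ g ≠ 0 →
      ∀ v : b → K, (M.map φ).mulVec v = 0 → v = 0 := by
  classical
  set F := FractionRing R
  have hker : LinearMap.ker (Matrix.mulVecLin (M.map (algebraMap R F))) = ⊥ := by
    rw [LinearMap.ker_eq_bot']
    exact h
  obtain ⟨L, hL⟩ := LinearMap.exists_leftInverse_of_injective _ hker
  let L' : Matrix b a F := LinearMap.toMatrix' L
  have hL' : L' * M.map (algebraMap R F) = 1 := by
    have h1 : LinearMap.toMatrix' (L.comp (Matrix.mulVecLin (M.map (algebraMap R F)))) = 1 := by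
      rw [hL, LinearMap.toMatrix'_id]
    rw [LinearMap.toMatrix'_comp] at h1
    rw [← h1]
    congr 1
    exact (LinearMap.toMatrix'_toLin' (M.map (algebraMap R F))).symm
  obtain ⟨d, hd⟩ := IsLocalization.exist_integer_multiples_of_finite (nonZeroDivisors R)
    (fun x : b × a => L' x.1 x.2)
  choose L'' hL'' using hd
  let LR : Matrix b a R := Matrix.of fun i j => L'' (i, j)
  have hLR : LR * M = (d : R) • (1 : Matrix b b R) := by
    have hinj : Function.Injective (algebraMap R F) := IsFractionRing.injective R F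
    have h1 : (LR * M).map (algebraMap R F) = ((d : R) • (1 : Matrix b b R)).map (algebraMap R F) := by
      rw [Matrix.map_mul]
      have h2 : LR.map (algebraMap R F) = (algebraMap R F d) • L' := by
        ext i j
        simp only [Matrix.map_apply, Matrix.smul_apply, LR, smul_eq_mul, Matrix.of_apply]
        rw [hL'' (i, j), Algebra.smul_def]
      rw [h2, Matrix.smul_mul, hL']
      ext i j
      simp only [Matrix.smul_apply, Matrix.map_apply, smul_eq_mul, map_mul]
      congr 1
      by_cases hij : i = j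
      · subst hij; simp
      · simp [hij]
    ext i j
    exact hinj (congrFun (congrFun h1 i) j)
  refine ⟨d, nonZeroDivisors.ne_zero d.2, fun K _ φ hφ v hv => ?_⟩
  have h1 : (LR.map φ) * (M.map φ) = (φ d) • (1 : Matrix b b K) := by
    rw [← Matrix.map_mul, hLR]
    ext i j
    simp only [Matrix.smul_apply, Matrix.map_apply, smul_eq_mul, map_mul]
    congr 1
    by_cases hij : i = j
    · subst hij; simp
    · simp [hij]
  have h2 : (φ d) • v = 0 := by
    have h3 : ((LR.map φ) * (M.map φ)).mulVec v = 0 := by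
      rw [← Matrix.mulVec_mulVec, hv, Matrix.mulVec_zero]
    rw [h1, Matrix.smul_mulVec, Matrix.one_mulVec] at h3
    exact h3
  exact (smul_eq_zero.mp h2).resolve_left hφ

section twisted

variable {S : Type*} [CommRing S] {n r : ℕ}

/-- The twisted operator `Z ↦ N T Z' - N B Z + (∑ j, μ j Tc j) Z`. -/
noncomputable def twOp (N : ℕ) (α : Fin n → S) (A : Fin n → Matrix (Fin r) (Fin r) S)
    (μ : Fin n → ℤ) (Z : Fin r → S[X]) : Fin r → S[X] := fun i =>
  (N : S[X]) * (T α * derivative (Z i)) - (N : S[X]) * (B α A).mulVec Z i +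
    (∑ j, (μ j : S[X]) * Tc α j) * Z i

lemma twOp_add (N : ℕ) (α : Fin n → S) (A : Fin n → Matrix (Fin r) (Fin r) S)
    (μ : Fin n → ℤ) (Z W : Fin r → S[X]) :
    twOp N α A μ (Z + W) = twOp N α A μ Z + twOp N α A μ W := by
  ext1 i
  simp only [twOp, Pi.add_apply, Matrix.mulVec_add, derivative_add]
  ring

lemma twOp_smul (N : ℕ) (α : Fin n → S) (A : Fin n → Matrix (Fin r) (Fin r) S)
    (μ : Fin n → ℤ) (c : S) (Z : Fin r → S[X]) :
    twOp N α A μ (C c • Z) = C c • twOp N α A μ Z := by
  ext1 i
  simp only [twOp, Pi.smul_apply, Matrix.mulVec_smul, smul_eq_mul, derivative_mul, derivative_C,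
    zero_mul, zero_add]
  ring

lemma twOp_zero (N : ℕ) (α : Fin n → S) (A : Fin n → Matrix (Fin r) (Fin r) S)
    (μ : Fin n → ℤ) : twOp N α A μ 0 = 0 := by
  ext1 i
  simp [twOp]

lemma twOp_sum {ι : Type*} (s : Finset ι) (N : ℕ) (α : Fin n → S)
    (A : Fin n → Matrix (Fin r) (Fin r) S)
    (μ : Fin n → ℤ) (c : ι → S) (Z : ι → Fin r → S[X]) :
    twOp N α A μ (∑ x ∈ s, C (c x) • Z x) = ∑ x ∈ s, C (c x) • twOp N α A μ (Z x) := by
  classical
  induction s using Finset.induction_on with
  | empty => simp [twOp_zero]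
  | insert a s ha ih =>
    rw [Finset.sum_insert ha, Finset.sum_insert ha, twOp_add, twOp_smul, ih]

lemma twOp_map {S' : Type*} [CommRing S'] (φ : S →+* S') (N : ℕ) (α : Fin n → S)
    (A : Fin n → Matrix (Fin r) (Fin r) S) (μ : Fin n → ℤ) (Z : Fin r → S[X]) (i : Fin r) :
    (twOp N α A μ Z i).map φ =
      twOp N (fun j => φ (α j)) (fun j => (A j).map φ) μ (fun l => (Z l).map φ) i := by
  have h1 : ((B α A).mulVec Z i).map φ =
      (B (fun j => φ (α j)) (fun j => (A j).map φ)).mulVec (fun l => (Z l).map φ) i := by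
    rw [← B_map]
    simp only [Matrix.mulVec, dotProduct, Polynomial.map_sum, Polynomial.map_mul, Matrix.map_apply,
      coe_mapRingHom]
  simp only [twOp, Polynomial.map_add, Polynomial.map_sub, Polynomial.map_mul,
    Polynomial.map_natCast, Polynomial.map_sum, Polynomial.map_intCast, h1, T_map, Tc_map,
    ← Polynomial.derivative_map]

end twisted

/-- Basis vectors of the polynomial vectors of degree at most `δ`. -/
noncomputable def basv (S : Type*) [CommRing S] (r δ : ℕ) (x : Fin r × Fin (δ + 1)) : Fin r → S[X] :=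
  Pi.single x.1 (X ^ x.2.val)

lemma sum_basv {S : Type*} [CommRing S] {r δ : ℕ} (z : Fin r × Fin (δ + 1) → S) (i : Fin r) :
    (∑ x, C (z x) • basv S r δ x) i = ∑ t : Fin (δ + 1), C (z (i, t)) * X ^ t.val := by
  classical
  rw [Finset.sum_apply, Fintype.sum_prod_type, Finset.sum_eq_single i]
  · refine Finset.sum_congr rfl fun t _ => ?_
    simp [basv]
  · intro b _ hb
    refine Finset.sum_eq_zero fun t _ => ?_
    simp [basv, hb.symm]
  · intro h; exact absurd (Finset.mem_univ i) h

lemma eq_sum_basv {S : Type*} [CommRing S] {r δ : ℕ} {Z : Fin r → S[X]}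
    (hZ : ∀ i, (Z i).natDegree ≤ δ) :
    Z = ∑ x : Fin r × Fin (δ + 1), C ((Z x.1).coeff x.2.val) • basv S r δ x := by
  ext1 i
  rw [sum_basv]
  conv_lhs => rw [(Z i).as_sum_range_C_mul_X_pow' (Nat.lt_succ_of_le (hZ i))]
  rw [Finset.sum_range]

lemma basv_map {S S' : Type*} [CommRing S] [CommRing S'] (φ : S →+* S') {r δ : ℕ}
    (x : Fin r × Fin (δ + 1)) : (fun l => (basv S r δ x l).map φ) = basv S' r δ x := by
  classical
  ext1 l
  by_cases h : l = x.1
  · subst h; simp [basv]
  · simp [basv, h]

lemma twOp_comb {R K : Type*} [CommRing R] [CommRing K] (φ : R →+* K) {n r δ : ℕ} (N : ℕ)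
    (α : Fin n → R) (A : Fin n → Matrix (Fin r) (Fin r) R) (μ : Fin n → ℤ)
    (z : Fin r × Fin (δ + 1) → K) (i : Fin r) :
    twOp N (fun j => φ (α j)) (fun j => (A j).map φ) μ (∑ x, C (z x) • basv K r δ x) i =
      ∑ x, C (z x) * (twOp N α A μ (basv R r δ x) i).map φ := by
  rw [twOp_sum, Finset.sum_apply]
  refine Finset.sum_congr rfl fun x _ => ?_
  rw [Pi.smul_apply, smul_eq_mul, ← basv_map φ x, ← twOp_map]

/-- If the twisted equation has no nonzero polynomial solution in characteristic zero, then it has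
no nonzero polynomial solution of bounded degree after specialisation outside the zero set of
some nonzero element. -/
theorem exists_good {R : Type*} [CommRing R] [IsDomain R] {n r : ℕ} (N : ℕ) (α : Fin n → R)
    (A : Fin n → Matrix (Fin r) (Fin r) R) (μ : Fin n → ℤ)
    (h : ∀ Z : Fin r → (FractionRing R)[X], twOp N (fun j => algebraMap R (FractionRing R) (α j))
      (fun j => (A j).map (algebraMap R (FractionRing R))) μ Z = 0 → Z = 0) (δ : ℕ) :
    ∃ g : R, g ≠ 0 ∧ ∀ (K : Type u) [Field K] (φ : R →+* K), φ g ≠ 0 →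
      ∀ Z : Fin r → K[X], (∀ i, (Z i).natDegree ≤ δ) →
        twOp N (fun j => φ (α j)) (fun j => (A j).map φ) μ Z = 0 → Z = 0 := by
  classical
  let E : Fin r × Fin (δ + 1) → Fin r → R[X] := fun x => twOp N α A μ (basv R r δ x)
  let U : ℕ := ∑ x, ∑ i, (E x i).natDegree + 1
  let M : Matrix (Fin r × Fin U) (Fin r × Fin (δ + 1)) R :=
    Matrix.of fun y x => (E x y.1).coeff y.2.val
  have hE : ∀ x i, (E x i).natDegree < U := by
    intro x i
    have h1 : (E x i).natDegree ≤ ∑ i, (E x i).natDegree :=
      Finset.single_le_sum (f := fun i => (E x i).natDegree) (fun _ _ => Nat.zero_le _)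
        (Finset.mem_univ i)
    have h2 : ∑ i, (E x i).natDegree ≤ ∑ x, ∑ i, (E x i).natDegree :=
      Finset.single_le_sum (f := fun x => ∑ i, (E x i).natDegree) (fun _ _ => Nat.zero_le _)
        (Finset.mem_univ x)
    omega
  obtain ⟨g, hg, hgood⟩ := exists_ne_zero_of_trivial_kernel.{u} M (by
    intro v hv
    have h1 : twOp N (fun j => algebraMap R (FractionRing R) (α j))
        (fun j => (A j).map (algebraMap R (FractionRing R))) μ
        (∑ x, C (v x) • basv (FractionRing R) r δ x) = 0 := by
      ext1 i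
      rw [twOp_comb (algebraMap R (FractionRing R)) N α A μ v i, Pi.zero_apply]
      ext u
      rw [finsetSum_coeff, coeff_zero]
      simp only [coeff_C_mul, coeff_map]
      by_cases hu : u < U
      · have h2 := congrFun hv (i, ⟨u, hu⟩)
        simp only [Matrix.mulVec, dotProduct, Matrix.map_apply, M, Matrix.of_apply,
          Pi.zero_apply] at h2
        rw [← h2]
        exact Finset.sum_congr rfl fun x _ => mul_comm _ _
      · refine Finset.sum_eq_zero fun x _ => ?_
        have h3 : (twOp N α A μ (basv R r δ x) i).natDegree < u :=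
          lt_of_lt_of_le (hE x i) (not_lt.mp hu)
        rw [coeff_eq_zero_of_natDegree_lt h3, map_zero, mul_zero]
    have h2 := h _ h1
    ext1 ⟨i, t⟩
    have h3 := congrFun h2 i
    rw [sum_basv, Pi.zero_apply] at h3
    have h4 := congrArg (fun q => q.coeff t.val) h3
    simp only [finsetSum_coeff, coeff_C_mul_X_pow, coeff_zero] at h4
    rw [Finset.sum_eq_single t] at h4
    · simpa using h4
    · intro b _ hb
      rw [if_neg]
      intro h0; exact hb (Fin.ext h0.symm)
    · intro h0; exact absurd (Finset.mem_univ t) h0)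
  refine ⟨g, hg, fun K _ φ hφ Z hZ hZ0 => ?_⟩
  have h1 : (fun x : Fin r × Fin (δ + 1) => (Z x.1).coeff x.2.val) = 0 := by
    apply hgood K φ hφ
    ext1 ⟨i, u⟩
    have h2 := congrFun hZ0 i
    rw [eq_sum_basv hZ, twOp_comb φ N α A μ _ i, Pi.zero_apply] at h2
    have h3 := congrArg (fun q => q.coeff u.val) h2
    simp only [finsetSum_coeff, coeff_C_mul, coeff_map, coeff_zero] at h3
    simp only [Matrix.mulVec, dotProduct, Matrix.map_apply, M, Matrix.of_apply, Pi.zero_apply]
    rw [← h3]
    exact Finset.sum_congr rfl fun x _ => mul_comm _ _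
  rw [eq_sum_basv hZ]
  refine Finset.sum_eq_zero fun x _ => ?_
  have h2 := congrFun h1 x
  simp only [Pi.zero_apply] at h2
  rw [h2, map_zero, zero_smul]

end Pool.Agent.W432.PC
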