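import Pool.Agent.W432.PC.Lin

set_option autoImplicit false

open Polynomial

namespace Pool.Agent.W432.PC

section

variable {k : Type*} [Field k] {n r : ℕ} {α : Fin n → k} {A : Fin n → Matrix (Fin r) (Fin r) k}

/-- The degree of a polynomial vector. -/
noncomputable def vdeg (y : Fin r → k[X]) : ℕ := Finset.univ.sup fun i => (y i).natDegree

lemma natDegree_le_vdeg (y : Fin r → k[X]) (i : Fin r) : (y i).natDegree ≤ vdeg y :=
  Finset.le_sup (f := fun i => (y i).natDegree) (Finset.mem_univ i)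

lemma vdeg_le {y : Fin r → k[X]} {d : ℕ} (h : ∀ i, (y i).natDegree ≤ d) : vdeg y ≤ d :=
  Finset.sup_le fun i _ => h i

/-- A full family of polynomial solutions of minimal total degree. -/
structure MinFam (α : Fin n → k) (A : Fin n → Matrix (Fin r) (Fin r) k)
    (Y : Matrix (Fin r) (Fin r) k[X]) : Prop where
  sol : ∀ i, Sol α A (Y i)
  det : Y.det ≠ 0
  min : ∀ Y' : Matrix (Fin r) (Fin r) k[X], (∀ i, Sol α A (Y' i)) → Y'.det ≠ 0 →
    ∑ i, vdeg (Y i) ≤ ∑ i, vdeg (Y' i)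

lemma exists_minFam {Y : Matrix (Fin r) (Fin r) k[X]} (h1 : ∀ i, Sol α A (Y i))
    (h2 : Y.det ≠ 0) : ∃ Y', MinFam α A Y' := by
  let S : Set ℕ := {m | ∃ Y' : Matrix (Fin r) (Fin r) k[X], (∀ i, Sol α A (Y' i)) ∧ Y'.det ≠ 0 ∧
    ∑ i, vdeg (Y' i) = m}
  have hS : S.Nonempty := ⟨_, Y, h1, h2, rfl⟩
  obtain ⟨Y', h3, h4, h5⟩ := Nat.sInf_mem hS
  refine ⟨Y', h3, h4, fun Z hZ hZd => ?_⟩
  rw [h5]
  exact Nat.sInf_le ⟨Z, hZ, hZd, rfl⟩

lemma MinFam.exchange {Y : Matrix (Fin r) (Fin r) k[X]} (h : MinFam α A Y) (i₀ : Fin r)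
    {Z : Fin r → k[X]} (hZ : Sol α A Z) (hdet : (Y.updateRow i₀ Z).det ≠ 0) :
    vdeg (Y i₀) ≤ vdeg Z := by
  have h1 := h.min (Y.updateRow i₀ Z) (fun i => ?_) hdet
  · rw [← Finset.add_sum_erase _ _ (Finset.mem_univ i₀),
      ← Finset.add_sum_erase Finset.univ (fun i => vdeg (Y.updateRow i₀ Z i))
        (Finset.mem_univ i₀)] at h1
    have h2 : ∑ x ∈ Finset.univ.erase i₀, vdeg (Y.updateRow i₀ Z x) =
        ∑ x ∈ Finset.univ.erase i₀, vdeg (Y x) := by
      refine Finset.sum_congr rfl fun x hx => ?_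
      rw [Matrix.updateRow_ne (Finset.mem_erase.mp hx).1]
    rw [h2, Matrix.updateRow_self] at h1
    omega
  · by_cases hi : i = i₀
    · subst hi; rw [Matrix.updateRow_self]; exact hZ
    · rw [Matrix.updateRow_ne hi]; exact h.sol i

variable {p : ℕ} [Fact p.Prime] [CharP k p]

omit [Fact p.Prime] in
lemma derivative_pow_p (a : k[X]) : derivative (a ^ p) = 0 := by
  rw [derivative_pow]
  simp [CharP.cast_eq_zero]

omit [Fact p.Prime] in
lemma derivative_pow_mul (a : k[X]) {m : ℕ} (h : p ∣ m) : derivative (a ^ m) = 0 := by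
  obtain ⟨t, rfl⟩ := h
  rw [mul_comm, pow_mul]
  exact derivative_pow_p _

/-- No nontrivial combination of the rows of a minimal family is divisible by `(X - x₀) ^ p`. -/
lemma MinFam.not_dvd {Y : Matrix (Fin r) (Fin r) k[X]} (h : MinFam α A Y) (x₀ : k)
    {l : Fin r → k} (hl : l ≠ 0) {Z : Fin r → k[X]}
    (hZ : ∑ i, C (l i) • Y i = ((X - C x₀) ^ p) • Z) : False := by
  classical
  have hp : 0 < p := (Fact.out : p.Prime).pos
  have hne : (Finset.univ.filter fun i => l i ≠ 0).Nonempty := by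
    obtain ⟨i, hi⟩ := Function.ne_iff.mp hl
    exact ⟨i, Finset.mem_filter.mpr ⟨Finset.mem_univ i, hi⟩⟩
  obtain ⟨i₀, hi₀, hmax⟩ := Finset.exists_max_image _ (fun i => vdeg (Y i)) hne
  have hi₀' : l i₀ ≠ 0 := (Finset.mem_filter.mp hi₀).2
  have hτ : ((X - C x₀ : k[X]) ^ p) ≠ 0 := pow_ne_zero _ (X_sub_C_ne_zero x₀)
  have hdet1 : (Y.updateRow i₀ (∑ i, C (l i) • Y i)).det = C (l i₀) * Y.det :=
    det_updateRow_sum' Y (fun i => C (l i)) i₀
  have hdet2 : (Y.updateRow i₀ Z).det ≠ 0 := by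
    intro h0
    rw [hZ, Matrix.det_updateRow_smul, h0, mul_zero] at hdet1
    exact (mul_ne_zero (C_ne_zero.mpr hi₀') h.det) hdet1.symm
  have hsolZ : Sol α A Z := by
    refine Sol.of_smul (derivative_pow_p (p := p) (X - C x₀)) hτ ?_
    rw [← hZ]
    exact Sol.sum _ fun i _ => (h.sol i).smul (derivative_C)
  have h1 := h.exchange i₀ hsolZ hdet2
  -- degree estimate
  have hZne : Z ≠ 0 := by
    rintro rfl
    exact hdet2 (Matrix.det_eq_zero_of_row_eq_zero i₀ fun j => by simp [Matrix.updateRow_self])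
  obtain ⟨j, hj⟩ := Function.ne_iff.mp hZne
  have h2 : ∀ j, (((X - C x₀ : k[X]) ^ p) * Z j).natDegree ≤ vdeg (Y i₀) := by
    intro j
    have := congrFun hZ j
    rw [Pi.smul_apply, smul_eq_mul] at this
    rw [← this, Finset.sum_apply]
    refine natDegree_sum_le_of_forall_le _ _ fun i _ => ?_
    rw [Pi.smul_apply, smul_eq_mul]
    by_cases hli : l i = 0
    · rw [hli]; simp
    · exact (natDegree_C_mul_le _ _).trans ((natDegree_le_vdeg _ _).trans
        (hmax i (Finset.mem_filter.mpr ⟨Finset.mem_univ i, hli⟩)))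
  have h3 : vdeg Z + p ≤ vdeg (Y i₀) := by
    obtain ⟨j', -, hj'⟩ := Finset.exists_mem_eq_sup (Finset.univ : Finset (Fin r))
      ⟨j, Finset.mem_univ j⟩ (fun i => (Z i).natDegree)
    by_cases h0 : vdeg Z = 0
    · rw [h0, zero_add]
      have := h2 j
      rw [natDegree_mul hτ hj, natDegree_pow, natDegree_X_sub_C] at this
      omega
    · have hj'' : Z j' ≠ 0 := by
        intro h00
        apply h0
        unfold vdeg
        rw [hj', h00]; simp
      have := h2 j'
      rw [natDegree_mul hτ hj'', natDegree_pow, natDegree_X_sub_C] at this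
      have h4 : vdeg Z = (Z j').natDegree := hj'
      omega
  omega

end

end Pool.Agent.W432.PC
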