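import Pool.Agent.W432.PC.Core
import Pool.Agent.W432.PC.Ddx

set_option autoImplicit false

open Polynomial

namespace Pool.Agent.W432.PC

section defs

variable {k : Type*} [Field k] {n r : ℕ}

/-- The matrix `∑ j, A j / (x - α j)` over `k(x)`. -/
noncomputable def G (α : Fin n → k) (A : Fin n → Matrix (Fin r) (Fin r) k) :
    Matrix (Fin r) (Fin r) (RatFunc k) :=
  ∑ j, (RatFunc.X - RatFunc.C (α j))⁻¹ • (A j).map RatFunc.C

/-- The connection `∇ = d/dx - ∑ j, A j / (x - α j)` on `k(x) ^ r`. -/
noncomputable def nabla (α : Fin n → k) (A : Fin n → Matrix (Fin r) (Fin r) k)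
    (y : Fin r → RatFunc k) : Fin r → RatFunc k :=
  fun i => ddx k (y i) - (G α A).mulVec y i

/-- The `p`-curvature `∇ ^ p` of the connection vanishes, `p` the characteristic of `k`. -/
def PCurvZero (α : Fin n → k) (A : Fin n → Matrix (Fin r) (Fin r) k) : Prop :=
  ∀ y : Fin r → RatFunc k, (nabla α A)^[ringChar k] y = 0

end defs

section recursion

variable {R : Type*} [CommRing R] {n r : ℕ}

/-- The polynomial matrices `T ^ i ∇ ^ i (1)`. -/
noncomputable def Q (α : Fin n → R) (A : Fin n → Matrix (Fin r) (Fin r) R) :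
    ℕ → Matrix (Fin r) (Fin r) R[X]
  | 0 => 1
  | i + 1 => T α • (Q α A i).map derivative - ((i : R[X]) * derivative (T α)) • Q α A i -
      B α A * Q α A i

end recursion

section map

variable {R S : Type*} [CommRing R] [CommRing S] {n r : ℕ} (φ : R →+* S)

lemma T_map (α : Fin n → R) : (T α).map φ = T (fun j => φ (α j)) := by
  unfold T
  rw [Polynomial.map_prod]
  simp

lemma Tc_map (α : Fin n → R) (j : Fin n) : (Tc α j).map φ = Tc (fun j => φ (α j)) j := by
  unfold Tc
  rw [Polynomial.map_prod]
  simp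

lemma B_map (α : Fin n → R) (A : Fin n → Matrix (Fin r) (Fin r) R) :
    (B α A).map (mapRingHom φ) = B (fun j => φ (α j)) (fun j => (A j).map φ) := by
  ext1 i l
  simp only [B, Matrix.map_apply, Matrix.sum_apply, Matrix.smul_apply, smul_eq_mul,
    coe_mapRingHom, Polynomial.map_sum, Polynomial.map_mul, Polynomial.map_C, Tc_map]

lemma Q_map (α : Fin n → R) (A : Fin n → Matrix (Fin r) (Fin r) R) (i : ℕ) :
    (Q α A i).map (mapRingHom φ) = Q (fun j => φ (α j)) (fun j => (A j).map φ) i := by
  induction i with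
  | zero =>
    simp only [Q]
    exact Matrix.map_one _ (map_zero _) (map_one _)
  | succ i ih =>
    have h1 : (Q α A (i + 1)).map (mapRingHom φ) =
        T (fun j => φ (α j)) • ((Q α A i).map (mapRingHom φ)).map derivative -
        ((i : S[X]) * derivative (T (fun j => φ (α j)))) • (Q α A i).map (mapRingHom φ) -
        (B α A).map (mapRingHom φ) * (Q α A i).map (mapRingHom φ) := by
      rw [← Matrix.map_mul]
      ext1 a b
      simp only [Q, Matrix.map_apply, Matrix.sub_apply, Matrix.smul_apply, smul_eq_mul,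
        coe_mapRingHom, Polynomial.map_sub, Polynomial.map_mul, Polynomial.map_natCast]
      rw [← T_map φ α, Polynomial.derivative_map, Polynomial.derivative_map]
    rw [h1, ih, B_map]
    rfl

end map

section field

variable {k : Type*} [Field k] {n r : ℕ} {α : Fin n → k} {A : Fin n → Matrix (Fin r) (Fin r) k}

lemma G_T (l m : Fin r) : algebraMap k[X] (RatFunc k) (T α) * G α A l m =
    algebraMap k[X] (RatFunc k) (B α A l m) := by
  unfold G B
  simp only [Matrix.sum_apply, Matrix.smul_apply, smul_eq_mul, Matrix.map_apply, map_sum, map_mul,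
    Finset.mul_sum]
  refine Finset.sum_congr rfl fun j _ => ?_
  have h1 : (RatFunc.X - RatFunc.C (α j) : RatFunc k) =
      algebraMap k[X] (RatFunc k) (X - C (α j)) := by
    rw [map_sub, RatFunc.algebraMap_X, RatFunc.algebraMap_C]
  have h2 : (algebraMap k[X] (RatFunc k) (X - C (α j))) ≠ 0 := by
    rw [Ne, map_eq_zero_iff _ (IsFractionRing.injective k[X] (RatFunc k))]
    exact X_sub_C_ne_zero _
  rw [h1, T_eq j, map_mul, RatFunc.algebraMap_C]
  field_simp

lemma nabla_iterate (c : Fin r) (i : ℕ) (l : Fin r) :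
    (algebraMap k[X] (RatFunc k) (T α)) ^ i * (nabla α A)^[i] (Pi.single c 1) l =
      algebraMap k[X] (RatFunc k) (Q α A i l c) := by
  induction i generalizing l with
  | zero =>
    simp only [pow_zero, one_mul, Function.iterate_zero, id_eq, Q]
    by_cases h : l = c
    · subst h; simp
    · simp [h]
  | succ i ih =>
    rw [Function.iterate_succ_apply']
    set v := (nabla α A)^[i] (Pi.single c 1) with hv
    set t := algebraMap k[X] (RatFunc k) (T α) with ht
    have h1 : (nabla α A v) l = ddx k (v l) - ∑ m, G α A l m * v m := rfl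
    have h2 : ddx k (algebraMap k[X] (RatFunc k) (Q α A i l c)) =
        (i : RatFunc k) * t ^ (i - 1) * ddx k t * v l + t ^ i * ddx k (v l) := by
      rw [← ih l, Derivation.leibniz, Derivation.leibniz_pow]
      simp only [smul_eq_mul, nsmul_eq_mul]
      ring
    rw [ddx_algebraMap] at h2
    have h3 : ddx k t = algebraMap k[X] (RatFunc k) (derivative (T α)) := ddx_algebraMap k _
    have h4 : Q α A (i + 1) l c = T α * derivative (Q α A i l c) -
        (i : k[X]) * derivative (T α) * Q α A i l c - ∑ m, B α A l m * Q α A i m c := by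
      simp only [Q, Matrix.sub_apply, Matrix.smul_apply, smul_eq_mul, Matrix.map_apply,
        Matrix.mul_apply]
    rw [h4]
    simp only [map_sub, map_mul, map_sum, map_natCast]
    rw [h2, h3, h1, ← ht, mul_sub, ← ih l]
    have h5 : t ^ (i + 1) * ∑ m, G α A l m * v m =
        ∑ m, algebraMap k[X] (RatFunc k) (B α A l m) * algebraMap k[X] (RatFunc k) (Q α A i m c) := by
      rw [Finset.mul_sum]
      refine Finset.sum_congr rfl fun m _ => ?_
      rw [← ih m, ← G_T, ← ht]
      ring
    rw [h5]
    have h6 : t * ((i : RatFunc k) * t ^ (i - 1) *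
        algebraMap k[X] (RatFunc k) (derivative (T α)) * v l + t ^ i * ddx k (v l)) =
        (i : RatFunc k) * algebraMap k[X] (RatFunc k) (derivative (T α)) * (t ^ i * v l) +
        t ^ (i + 1) * ddx k (v l) := by
      cases i with
      | zero => simp
      | succ m =>
        simp only [Nat.add_sub_cancel]
        ring
    rw [h6]
    ring

lemma Q_eq_zero_of_pCurvZero (h : PCurvZero α A) : Q α A (ringChar k) = 0 := by
  ext1 l c
  have h1 := nabla_iterate (α := α) (A := A) c (ringChar k) l
  rw [h] at h1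
  rw [Pi.zero_apply, mul_zero] at h1
  rw [Matrix.zero_apply]
  exact (map_eq_zero_iff _ (IsFractionRing.injective k[X] (RatFunc k))).mp h1.symm

variable {p : ℕ} [Fact p.Prime] [CharP k p]

/-- The coefficient `(-(X - x₀)) ^ i / i!`. -/
noncomputable def cf (x₀ : k) (i : ℕ) : k[X] := C ((i.factorial : k)⁻¹) * (-(X - C x₀)) ^ i

omit [CharP k p] [Fact p.Prime] in
lemma cf_derivative_zero (x₀ : k) : derivative (cf x₀ 0) = 0 := by
  simp [cf]

omit [Fact p.Prime] in
lemma cf_derivative_succ (x₀ : k) {i : ℕ} (hi : i + 1 < p) (hp : p.Prime) :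
    derivative (cf x₀ (i + 1)) = - cf x₀ i := by
  have h1 : ((i + 1 : ℕ) : k) ≠ 0 := by
    rw [Ne, CharP.cast_eq_zero_iff k p]
    exact Nat.not_dvd_of_pos_of_lt (Nat.succ_pos i) hi
  have h2 : derivative ((-(X - C x₀ : k[X])) ^ (i + 1)) =
      -(C ((i + 1 : ℕ) : k) * (-(X - C x₀)) ^ i) := by
    rw [derivative_pow]
    simp only [Nat.add_sub_cancel, derivative_neg, derivative_sub, derivative_X, derivative_C,
      sub_zero]
    ring
  unfold cf
  rw [derivative_mul, derivative_C, zero_mul, zero_add, h2, Nat.factorial_succ]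
  have h3 : (C ((((i + 1) * i.factorial : ℕ) : k)⁻¹) * C ((i + 1 : ℕ) : k) : k[X]) =
      C ((i.factorial : k)⁻¹) := by
    rw [← map_mul]
    congr 1
    push_cast at h1 ⊢
    rw [mul_inv, mul_comm, ← mul_assoc, mul_inv_cancel₀ h1, one_mul]
  calc C ((((i + 1) * i.factorial : ℕ) : k)⁻¹) * -(C ((i + 1 : ℕ) : k) * (-(X - C x₀)) ^ i)
      = -((C ((((i + 1) * i.factorial : ℕ) : k)⁻¹) * C ((i + 1 : ℕ) : k)) *
          (-(X - C x₀)) ^ i) := by ring
    _ = _ := by rw [h3]

/-- The matrix of solutions obtained from vanishing `p`-curvature. -/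
noncomputable def Smat (α : Fin n → k) (A : Fin n → Matrix (Fin r) (Fin r) k) (p : ℕ) (x₀ : k) :
    Matrix (Fin r) (Fin r) k[X] :=
  ∑ i ∈ Finset.range p, (cf x₀ i * T α ^ (p - i)) • Q α A i

lemma Smat_eq (x₀ : k) (hQ : Q α A p = 0) :
    T α • (Smat α A p x₀).map derivative = B α A * Smat α A p x₀ := by
  have hp : p.Prime := Fact.out
  have hterm : ∀ i < p, T α • ((cf x₀ i * T α ^ (p - i)) • Q α A i).map derivative =
      (derivative (cf x₀ i) * T α ^ (p - i + 1)) • Q α A i +
      (cf x₀ i * T α ^ (p - i)) • Q α A (i + 1) +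
      B α A * ((cf x₀ i * T α ^ (p - i)) • Q α A i) := by
    intro i hi
    have h1 : (T α * derivative (T α ^ (p - i)) : k[X]) =
        -((i : k[X]) * derivative (T α) * T α ^ (p - i)) := by
      rw [derivative_pow]
      have h2 : ((p - i : ℕ) : k) = -(i : k) := by
        rw [Nat.cast_sub hi.le, CharP.cast_eq_zero, zero_sub]
      rw [h2]
      have h3 : T α ^ (p - i) = T α ^ (p - i - 1) * T α := by
        rw [← pow_succ]; congr 1; omega
      rw [h3]
      simp only [map_neg, map_natCast]
      ring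
    ext1 l c
    simp only [Matrix.smul_apply, Matrix.map_apply, Matrix.add_apply, smul_eq_mul, Q,
      Matrix.sub_apply, Matrix.mul_smul, derivative_mul]
    have h4 : T α * ((derivative (cf x₀ i) * T α ^ (p - i) +
        cf x₀ i * derivative (T α ^ (p - i))) * Q α A i l c +
        cf x₀ i * T α ^ (p - i) * derivative (Q α A i l c)) =
        derivative (cf x₀ i) * T α ^ (p - i + 1) * Q α A i l c +
        cf x₀ i * (T α * derivative (T α ^ (p - i))) * Q α A i l c +
        cf x₀ i * T α ^ (p - i) * (T α * derivative (Q α A i l c)) := by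
      ring
    rw [h4, h1]
    ring
  have h1 : T α • (Smat α A p x₀).map derivative =
      ∑ i ∈ Finset.range p, T α • ((cf x₀ i * T α ^ (p - i)) • Q α A i).map derivative := by
    unfold Smat
    ext1 l c
    simp only [Matrix.smul_apply, Matrix.map_apply, Matrix.sum_apply, smul_eq_mul,
      derivative_sum, Finset.mul_sum]
  rw [h1, Finset.sum_congr rfl fun i hi => hterm i (Finset.mem_range.mp hi),
    Finset.sum_add_distrib, Finset.sum_add_distrib]
  have h2 : ∑ i ∈ Finset.range p, B α A * ((cf x₀ i * T α ^ (p - i)) • Q α A i) =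
      B α A * Smat α A p x₀ := by
    unfold Smat
    rw [Matrix.mul_sum]
  rw [h2]
  have h3 : ∑ i ∈ Finset.range p, (derivative (cf x₀ i) * T α ^ (p - i + 1)) • Q α A i +
      ∑ i ∈ Finset.range p, (cf x₀ i * T α ^ (p - i)) • Q α A (i + 1) = 0 := by
    obtain ⟨m, rfl⟩ : ∃ m, p = m + 1 := ⟨p - 1, by have := hp.pos; omega⟩
    rw [Finset.sum_range_succ', Finset.sum_range_succ]
    rw [cf_derivative_zero, zero_mul, zero_smul, add_zero, hQ, smul_zero, add_zero,
      ← Finset.sum_add_distrib]
    refine Finset.sum_eq_zero fun i hi => ?_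
    have hi' := Finset.mem_range.mp hi
    rw [cf_derivative_succ (p := m + 1) x₀ (by omega) hp]
    have h4 : m + 1 - (i + 1) + 1 = m + 1 - i := by omega
    rw [h4, neg_mul, neg_smul, neg_add_cancel]
  rw [h3, zero_add]

lemma Smat_det_ne {x₀ : k} (hx : ∀ j, x₀ ≠ α j) : (Smat α A p x₀).det ≠ 0 := by
  have hp : p.Prime := Fact.out
  have h1 : ((Smat α A p x₀).map (evalRingHom x₀)) = ((T α).eval x₀ ^ p) • (1 : Matrix (Fin r) (Fin r) k) := by
    obtain ⟨m, hm⟩ : ∃ m, p = m + 1 := ⟨p - 1, by have := hp.pos; omega⟩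
    ext1 l c
    simp only [Smat, Matrix.map_apply, Matrix.sum_apply, Matrix.smul_apply, smul_eq_mul,
      coe_evalRingHom, eval_finsetSum, eval_mul, eval_pow]
    rw [Finset.sum_eq_single 0]
    · simp only [cf, Nat.factorial_zero, Nat.cast_one, inv_one, map_one, pow_zero, one_mul,
        eval_one, Nat.sub_zero, Q]
      by_cases h : l = c
      · subst h; simp
      · simp [h]
    · intro i _ hi
      have : (cf x₀ i).eval x₀ = 0 := by
        simp only [cf, eval_mul, eval_C, eval_pow, eval_neg, eval_sub, eval_X, sub_self, neg_zero]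
        rw [zero_pow hi, mul_zero]
      rw [this]; ring
    · intro h0
      exact absurd (Finset.mem_range.mpr hp.pos) h0
  intro h0
  have h2 : ((Smat α A p x₀).map (evalRingHom x₀)).det = 0 := by
    have h3 := RingHom.map_det (evalRingHom x₀) (Smat α A p x₀)
    rw [h0, map_zero] at h3
    exact h3.symm
  rw [h1, Matrix.det_smul, Matrix.det_one, mul_one] at h2
  exact pow_ne_zero _ (pow_ne_zero _ (T_eval_ne hx)) h2

/-- Cartier: vanishing of `Q p` gives a full family of polynomial solutions. -/
theorem exists_full [Infinite k] (hQ : Q α A p = 0) :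
    ∃ Y : Matrix (Fin r) (Fin r) k[X], (∀ i, Sol α A (Y i)) ∧ Y.det ≠ 0 := by
  classical
  obtain ⟨x₀, hx₀⟩ := Infinite.exists_notMem_finset (Finset.univ.image α)
  have hx : ∀ j, x₀ ≠ α j := fun j hj =>
    hx₀ (Finset.mem_image.mpr ⟨j, Finset.mem_univ j, hj.symm⟩)
  refine ⟨(Smat α A p x₀).transpose, fun i l => ?_, ?_⟩
  · have h1 := congrFun (congrFun (Smat_eq x₀ hQ) l) i
    simp only [Matrix.smul_apply, Matrix.map_apply, smul_eq_mul] at h1
    exact h1
  · rw [Matrix.det_transpose]
    exact Smat_det_ne hx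

end field

end Pool.Agent.W432.PC
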